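import Pool.Agent.TH773.CL.Eng

/-! The classes, the checks for the completions of a cloned pattern, and the counting step. -/

set_option autoImplicit false
set_option maxRecDepth 100000
set_option maxHeartbeats 4000000
open Finset
open scoped Classical

namespace Pool.Agent.TH773.CL
open Pool.Agent.H122R2.N6 Pool.Agent.H37R3.Pen Pool.Agent.H37R3.Cop

/-- the labelled five-tuple `x` has pattern `f` -/
def Cp5 {V : Type} (E : V → V → V → ℕ) (f : ℕ) (x : Fin 5 → V) : Prop :=
  ∀ i j k : Fin 5, i < j → j < k → E (x i) (x j) (x k) = bt f (tx i j k)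

/-- the number of edges of six vertices -/
def sp6 (f : Fin 6 → Fin 6 → Fin 6 → ℕ) : ℕ :=
  f 0 1 2 + f 0 1 3 + f 0 2 3 + f 1 2 3 + f 0 1 4 + f 0 2 4 + f 1 2 4 + f 0 3 4 + f 1 3 4 + f 2 3 4 +
  f 0 1 5 + f 0 2 5 + f 1 2 5 + f 0 3 5 + f 1 3 5 + f 2 3 5 + f 0 4 5 + f 1 4 5 + f 2 4 5 + f 3 4 5

theorem sp6_congr {f g : Fin 6 → Fin 6 → Fin 6 → ℕ}
    (key : ∀ i j k : Fin 6, i < j → j < k → f i j k = g i j k) : sp6 f = sp6 g := by
  unfold sp6
  rw [key 0 1 2 (by decide) (by decide), key 0 1 3 (by decide) (by decide),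
    key 0 2 3 (by decide) (by decide), key 1 2 3 (by decide) (by decide),
    key 0 1 4 (by decide) (by decide), key 0 2 4 (by decide) (by decide),
    key 1 2 4 (by decide) (by decide), key 0 3 4 (by decide) (by decide),
    key 1 3 4 (by decide) (by decide), key 2 3 4 (by decide) (by decide),
    key 0 1 5 (by decide) (by decide), key 0 2 5 (by decide) (by decide),
    key 1 2 5 (by decide) (by decide), key 0 3 5 (by decide) (by decide),
    key 1 3 5 (by decide) (by decide), key 2 3 5 (by decide) (by decide),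
    key 0 4 5 (by decide) (by decide), key 1 4 5 (by decide) (by decide),
    key 2 4 5 (by decide) (by decide), key 3 4 5 (by decide) (by decide)]

/-- the number of labelled induced copies of a five-vertex pattern -/
noncomputable def cp5 {V : Type} [Fintype V] (E : V → V → V → ℕ) (f : ℕ) : ℕ :=
  ((univ : Finset (Fin 5 → V)).filter fun x => Function.Injective x ∧ Cp5 E f x).card

/-- the number of injective six-tuples with `q` edges -/
noncomputable def c6 {V : Type} [Fintype V] (E : V → V → V → ℕ) (q : ℕ) : ℕ :=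
  ((univ : Finset (Fin 6 → V)).filter fun x => Function.Injective x ∧
    sp6 (fun i j k => E (x i) (x j) (x k)) = q).card

/-- a class of `K_4^3`-free 3-graphs: few induced copies of the five-vertex 3-graphs with codes in
`F5`, and few sets of six vertices which span a number of edges in `S6` -/
structure Cl (F5 S6 : List ℕ) (K : ℕ) {V : Type} [Fintype V] (E : V → V → V → ℕ) : Prop where
  sy : Sy E
  k4 : NoK4 E
  f5 : ∀ f ∈ F5, K * cp5 E f ≤ Fintype.card V ^ 5
  s6 : ∀ q ∈ S6, K * c6 E q ≤ Fintype.card V ^ 6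

theorem Cl.mono {F5 S6 : List ℕ} {K K' : ℕ} {V : Type} [Fintype V] {E : V → V → V → ℕ}
    (h : Cl F5 S6 K' E) (hK : K ≤ K') : Cl F5 S6 K E :=
  ⟨h.sy, h.k4, fun f hf => (Nat.mul_le_mul_right _ hK).trans (h.f5 f hf),
    fun q hq => (Nat.mul_le_mul_right _ hK).trans (h.s6 q hq)⟩

/-- digits -/
def g7 (p i : ℕ) : Fin 7 := ⟨p / 8 ^ i % 8 % 7, Nat.mod_lt _ (by norm_num)⟩

/-- the first `s` digits are different -/
def inj7 (p s : ℕ) : Bool := nall s fun i => nall i fun j => !Nat.beq (g7 p i).val (g7 p j).val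

/-- the pattern of the vertices given by the digits is `r` -/
def mat (m c p r s : ℕ) : Bool :=
  nall s fun k => nall k fun j => nall j fun i =>
    Nat.beq (v7 m c (g7 p i) (g7 p j) (g7 p k)) (bt r (tx i j k))

theorem nall_lt {n : ℕ} {f : ℕ → Bool} (h : nall n f = true) (k : ℕ) (hk : k < n) : f k = true :=
  nall_true h k hk

theorem inj7_true {p s : ℕ} (h : inj7 p s = true) :
    Function.Injective fun i : Fin s => g7 p i.val := by
  have key : ∀ i j : Fin s, j < i → g7 p i.val ≠ g7 p j.val := by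
    intro i j hij hh
    have h1 := nall_lt (nall_lt h i.val i.isLt) j.val hij
    rw [hh] at h1
    simp at h1
  intro i j hij
  rcases lt_trichotomy i j with h1 | h1 | h1
  · exact absurd hij.symm (key j i h1)
  · exact h1
  · exact absurd hij (key i j h1)

theorem mat_true {m c p r s : ℕ} (h : mat m c p r s = true) (i j k : ℕ) (hij : i < j) (hjk : j < k)
    (hk : k < s) : v7 m c (g7 p i) (g7 p j) (g7 p k) = bt r (tx i j k) :=
  Nat.eq_of_beq_eq_true (nall_lt (nall_lt (nall_lt h k hk) j hjk) i hij)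

def wit0 (m c p : ℕ) : Bool :=
  inj7 p 4 && Nat.beq (v7 m c (g7 p 0) (g7 p 1) (g7 p 2) + v7 m c (g7 p 0) (g7 p 1) (g7 p 3) +
    v7 m c (g7 p 0) (g7 p 2) (g7 p 3) + v7 m c (g7 p 1) (g7 p 2) (g7 p 3)) 4
def wit1 (F5 : List ℕ) (m c p r : ℕ) : Bool :=
  inj7 p 5 && (F5.any fun f => Nat.beq f r) && mat m c p r 5
def wit2 (S6 : List ℕ) (m c p r : ℕ) : Bool :=
  inj7 p 6 && (S6.any fun q => Nat.beq q r) &&
    Nat.beq (sp6 fun i j k => v7 m c (g7 p i.val) (g7 p j.val) (g7 p k.val)) r
def wit3 (L : List ℕ) (m c p r : ℕ) : Bool :=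
  inj7 p 6 && (L.any fun q => Nat.beq q r) && mat m c p r 6

/-- a witness for the completion `c` of the pattern `m` cloned in its last vertex -/
def wit (F5 S6 L : List ℕ) (m c : ℕ) : ℕ × ℕ × ℕ → Bool
  | (0, p, _) => wit0 m c p
  | (1, p, r) => wit1 F5 m c p r
  | (2, p, r) => wit2 S6 m c p r
  | (_, p, r) => wit3 L m c p r

theorem ti_tx : ∀ i j k : Fin 6, i < j → j < k → ti i j k = tx i.val j.val k.val := by decide

theorem any_mem {L : List ℕ} {w : ℕ} (h : (L.any fun q => Nat.beq q w) = true) : w ∈ L := by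
  rw [List.any_eq_true] at h
  obtain ⟨q, hq, h1⟩ := h
  rw [← Nat.eq_of_beq_eq_true h1]
  exact hq

section
variable {V : Type} {E : V → V → V → ℕ} {F5 S6 L : List ℕ} {m c : ℕ}

theorem wit_sound (hE : Sy E) (hK : NoK4 E) {w : ℕ × ℕ × ℕ} (h : wit F5 S6 L m c w = true) :
    (∀ y : Fin 7 → V, Function.Injective y → ¬ Cp7 E m c y) ∨
      (∃ f ∈ F5, ∃ e : Fin 5 → Fin 7, Function.Injective e ∧
        ∀ y : Fin 7 → V, Function.Injective y → Cp7 E m c y → Cp5 E f (y ∘ e)) ∨
      (∃ q ∈ S6, ∃ e : Fin 6 → Fin 7, Function.Injective e ∧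
        ∀ y : Fin 7 → V, Function.Injective y → Cp7 E m c y →
          sp6 (fun i j k => E ((y ∘ e) i) ((y ∘ e) j) ((y ∘ e) k)) = q) ∨
      ∃ m' ∈ L, ∃ e : Fin 6 → Fin 7, Function.Injective e ∧
        ∀ y : Fin 7 → V, Function.Injective y → Cp7 E m c y → Copy E m' (y ∘ e) := by
  obtain ⟨t, p, r⟩ := w
  match t, h with
  | 0, h =>
    left
    replace h : wit0 m c p = true := h
    unfold wit0 at h
    rw [Bool.and_eq_true] at h
    intro y _ hc
    have hi : Function.Injective fun i : Fin 4 => g7 p i.val := inj7_true h.1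
    have h2 := Nat.eq_of_beq_eq_true h.2
    have hne : ∀ i j : Fin 4, i ≠ j → g7 p i.val ≠ g7 p j.val := fun i j hij hh => hij (hi hh)
    have e1 := hc.full hE (g7 p 0) (g7 p 1) (g7 p 2) (hne 0 1 (by decide)) (hne 0 2 (by decide)) (hne 1 2 (by decide))
    have e2 := hc.full hE (g7 p 0) (g7 p 1) (g7 p 3) (hne 0 1 (by decide)) (hne 0 3 (by decide)) (hne 1 3 (by decide))
    have e3 := hc.full hE (g7 p 0) (g7 p 2) (g7 p 3) (hne 0 2 (by decide)) (hne 0 3 (by decide)) (hne 2 3 (by decide))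
    have e4 := hc.full hE (g7 p 1) (g7 p 2) (g7 p 3) (hne 1 2 (by decide)) (hne 1 3 (by decide)) (hne 2 3 (by decide))
    have h3 := hK (y (g7 p 0)) (y (g7 p 1)) (y (g7 p 2)) (y (g7 p 3))
    rw [e1, e2, e3, e4] at h3
    unfold k4b at h3
    have h4 : Nat.add (v7 m c (g7 p 0) (g7 p 1) (g7 p 2)) (Nat.add (v7 m c (g7 p 0) (g7 p 1) (g7 p 3))
      (Nat.add (v7 m c (g7 p 0) (g7 p 2) (g7 p 3)) (v7 m c (g7 p 1) (g7 p 2) (g7 p 3)))) = 4 := by
      simp only [Nat.add_eq]
      omega
    rw [h4] at h3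
    exact absurd h3 (by decide)
  | 1, h =>
    right; left
    replace h : wit1 F5 m c p r = true := h
    unfold wit1 at h
    rw [Bool.and_eq_true, Bool.and_eq_true] at h
    have hi : Function.Injective fun i : Fin 5 => g7 p i.val := inj7_true h.1.1
    refine ⟨r, any_mem h.1.2, fun i : Fin 5 => g7 p i.val, hi, ?_⟩
    intro y _ hc i j k hij hjk
    have h1 := mat_true h.2 i.val j.val k.val hij hjk k.isLt
    rw [← h1]
    exact hc.full hE _ _ _ (fun e => hij.ne (hi e)) (fun e => (hij.trans hjk).ne (hi e))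
      (fun e => hjk.ne (hi e))
  | 2, h =>
    right; right; left
    replace h : wit2 S6 m c p r = true := h
    unfold wit2 at h
    rw [Bool.and_eq_true, Bool.and_eq_true] at h
    have hi : Function.Injective fun i : Fin 6 => g7 p i.val := inj7_true h.1.1
    refine ⟨r, any_mem h.1.2, fun i : Fin 6 => g7 p i.val, hi, ?_⟩
    intro y _ hc
    rw [← Nat.eq_of_beq_eq_true h.2]
    have key : ∀ i j k : Fin 6, i < j → j < k →
        E ((y ∘ fun i : Fin 6 => g7 p i.val) i) ((y ∘ fun i : Fin 6 => g7 p i.val) j)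
          ((y ∘ fun i : Fin 6 => g7 p i.val) k) = v7 m c (g7 p i.val) (g7 p j.val) (g7 p k.val) := by
      intro i j k hij hjk
      exact hc.full hE _ _ _ (fun e => hij.ne (hi e)) (fun e => (hij.trans hjk).ne (hi e))
        (fun e => hjk.ne (hi e))
    exact sp6_congr key
  | (_ + 3), h =>
    right; right; right
    replace h : wit3 L m c p r = true := h
    unfold wit3 at h
    rw [Bool.and_eq_true, Bool.and_eq_true] at h
    have hi : Function.Injective fun i : Fin 6 => g7 p i.val := inj7_true h.1.1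
    refine ⟨r, any_mem h.1.2, fun i : Fin 6 => g7 p i.val, hi, ?_⟩
    intro y _ hc i j k hij hjk
    have h1 := mat_true h.2 i.val j.val k.val hij hjk k.isLt
    rw [ti_tx i j k hij hjk, ← h1]
    exact hc.full hE _ _ _ (fun e => hij.ne (hi e)) (fun e => (hij.trans hjk).ne (hi e))
      (fun e => hjk.ne (hi e))

theorem bits5 : ∀ b0 b1 b2 b3 b4 : Fin 2, ∃ c : Fin 32, bt c.val 0 = b0.val ∧ bt c.val 1 = b1.val ∧
    bt c.val 2 = b2.val ∧ bt c.val 3 = b3.val ∧ bt c.val 4 = b4.val := by decide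

theorem exists_code {f : Fin 5 → ℕ} (hf : ∀ a, f a = 0 ∨ f a = 1) :
    ∃ c < 32, ∀ a : Fin 5, f a = bt c a.val := by
  have hlt : ∀ a, f a < 2 := fun a => by rcases hf a with h | h <;> rw [h] <;> decide
  obtain ⟨c, h0, h1, h2, h3, h4⟩ := bits5 ⟨f 0, hlt 0⟩ ⟨f 1, hlt 1⟩ ⟨f 2, hlt 2⟩ ⟨f 3, hlt 3⟩ ⟨f 4, hlt 4⟩
  refine ⟨c.val, c.isLt, ?_⟩
  intro a
  fin_cases a
  exacts [h0.symm, h1.symm, h2.symm, h3.symm, h4.symm]

end

section
variable {V : Type} [Fintype V] {E : V → V → V → ℕ} {F5 S6 L : List ℕ} {m : ℕ}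

/-- the number of labelled induced copies of a pattern -/
noncomputable def cp {V : Type} [Fintype V] (E : V → V → V → ℕ) (m : ℕ) : ℕ :=
  ((univ : Finset (Fin 6 → V)).filter fun x => Function.Injective x ∧ Copy E m x).card

/-- the check for all completions -/
def stepB (F5 S6 L : List ℕ) (m : ℕ) (W : List (ℕ × ℕ × ℕ)) : Bool :=
  nall 32 fun c => wit F5 S6 L m c (W.getD c (4, 0, 0))

/-- seven-tuples with two copies which differ in the last vertex -/
noncomputable def Q7 {V : Type} [Fintype V] (E : V → V → V → ℕ) (m : ℕ) : Finset (Fin 7 → V) :=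
  univ.filter fun y => (Function.Injective (fun t : Fin 6 => y t.castSucc) ∧
    Copy E m fun t => y t.castSucc) ∧
    (Function.Injective (fun t : Fin 6 => y ((5 : Fin 7).succAbove t)) ∧
      Copy E m fun t => y ((5 : Fin 7).succAbove t))

/-- Cauchy–Schwarz -/
theorem cs (E : V → V → V → ℕ) (m : ℕ) : cp E m ^ 2 ≤ Fintype.card V ^ 5 * (Q7 E m).card := by
  set S : Finset (Fin 6 → V) := (univ : Finset (Fin 6 → V)).filter fun x =>
    Function.Injective x ∧ Copy E m x with hS
  let pr : (Fin 6 → V) → (Fin 5 → V) := fun x t => x t.castSucc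
  have h1 : S.card = ∑ z : Fin 5 → V, (S.filter fun x => pr x = z).card :=
    card_eq_sum_card_fiberwise (t := univ) fun x _ => mem_coe.mpr (mem_univ _)
  have h2 : (∑ z : Fin 5 → V, (S.filter fun x => pr x = z).card) ^ 2 ≤
      (univ : Finset (Fin 5 → V)).card * ∑ z : Fin 5 → V, (S.filter fun x => pr x = z).card ^ 2 :=
    sq_sum_le_card_mul_sum_sq
  have h3 : (univ : Finset (Fin 5 → V)).card = Fintype.card V ^ 5 := by
    rw [card_univ, Fintype.card_fun, Fintype.card_fin]
  have h4 : ∑ z : Fin 5 → V, (S.filter fun x => pr x = z).card ^ 2 ≤ (Q7 E m).card := by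
    have h5 : (Q7 E m).card = ∑ z : Fin 5 → V,
        ((Q7 E m).filter fun y => (fun t : Fin 5 => y t.castSucc.castSucc) = z).card :=
      card_eq_sum_card_fiberwise (t := univ) fun x _ => mem_coe.mpr (mem_univ _)
    rw [h5]
    refine sum_le_sum fun z _ => ?_
    rw [sq, ← card_product]
    refine card_le_card_of_injOn
      (fun q : (Fin 6 → V) × (Fin 6 → V) => (Fin.snoc q.1 (q.2 5) : Fin 7 → V)) ?_ ?_
    · rintro ⟨x, x'⟩ hx
      obtain ⟨hx1, hx2⟩ := mem_product.mp (mem_coe.mp hx)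
      obtain ⟨a1, a2⟩ := mem_filter.mp hx1
      obtain ⟨b1, b2⟩ := mem_filter.mp hx2
      have a3 := (mem_filter.mp a1).2
      have b3 := (mem_filter.mp b1).2
      have e1 : (fun t : Fin 6 => (Fin.snoc x (x' 5) : Fin 7 → V) t.castSucc) = x := by
        funext t
        exact Fin.snoc_castSucc (α := fun _ => V) _ _ _
      have e2 : (fun t : Fin 6 => (Fin.snoc x (x' 5) : Fin 7 → V) ((5 : Fin 7).succAbove t)) = x' := by
        funext t
        have hz : ∀ s : Fin 5, x s.castSucc = x' s.castSucc := fun s =>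
          (congrFun a2 s).trans (congrFun b2 s).symm
        fin_cases t
        · exact (Fin.snoc_castSucc (α := fun _ => V) _ x (0 : Fin 6)).trans (hz 0)
        · exact (Fin.snoc_castSucc (α := fun _ => V) _ x (1 : Fin 6)).trans (hz 1)
        · exact (Fin.snoc_castSucc (α := fun _ => V) _ x (2 : Fin 6)).trans (hz 2)
        · exact (Fin.snoc_castSucc (α := fun _ => V) _ x (3 : Fin 6)).trans (hz 3)
        · exact (Fin.snoc_castSucc (α := fun _ => V) _ x (4 : Fin 6)).trans (hz 4)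
        · exact Fin.snoc_last (α := fun _ => V) _ _
      refine mem_coe.mpr (mem_filter.mpr ⟨mem_filter.mpr ⟨mem_univ _, ?_⟩, ?_⟩)
      · rw [e1, e2]
        exact ⟨a3, b3⟩
      · have e3 : (fun t : Fin 5 => (Fin.snoc x (x' 5) : Fin 7 → V) t.castSucc.castSucc) = pr x := by
          funext t
          exact congrFun e1 t.castSucc
        rw [e3]
        exact a2
    · rintro ⟨x, x'⟩ hx ⟨u, u'⟩ hu hh
      obtain ⟨hx1, hx2⟩ := mem_product.mp (mem_coe.mp hx)
      obtain ⟨hu1, hu2⟩ := mem_product.mp (mem_coe.mp hu)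
      have b2 := (mem_filter.mp hx2).2
      have d2 := (mem_filter.mp hu2).2
      have e1 : x = u := by
        funext t
        have := congrFun hh t.castSucc
        simpa using this
      have e2 : x' 5 = u' 5 := by
        have h6 := congrFun hh (Fin.last 6)
        change (Fin.snoc x (x' 5) : Fin 7 → V) (Fin.last 6) =
          (Fin.snoc u (u' 5) : Fin 7 → V) (Fin.last 6) at h6
        rwa [Fin.snoc_last (α := fun _ => V), Fin.snoc_last (α := fun _ => V)] at h6
      have e3 : x' = u' := by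
        funext t
        have hz : ∀ s : Fin 5, x' s.castSucc = u' s.castSucc := fun s =>
          (congrFun b2 s).trans (congrFun d2 s).symm
        fin_cases t
        exacts [hz 0, hz 1, hz 2, hz 3, hz 4, e2]
      rw [e1, e3]
  calc cp E m ^ 2 = (∑ z : Fin 5 → V, (S.filter fun x => pr x = z).card) ^ 2 := by
        rw [← h1]; rfl
    _ ≤ _ := h2
    _ ≤ Fintype.card V ^ 5 * (Q7 E m).card := by
        rw [h3]; exact Nat.mul_le_mul_left _ h4

/-- the counting step -/
theorem step_count (hE : Sy E) (hK : NoK4 E) {W : List (ℕ × ℕ × ℕ)}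
    (hW : stepB F5 S6 L m W = true) {B : ℕ} (hB5 : ∀ f ∈ F5, cp5 E f * Fintype.card V ≤ B)
    (hB6 : ∀ q ∈ S6, c6 E q ≤ B) (hB : ∀ m' ∈ L, cp E m' ≤ B) :
    cp E m ^ 2 ≤ Fintype.card V ^ 5 * (Fintype.card V ^ 6 + 32 * (B * Fintype.card V)) := by
  refine (cs E m).trans (Nat.mul_le_mul_left _ ?_)
  let Q0 : Finset (Fin 7 → V) := (Q7 E m).filter fun y => y 5 = y 6
  let Q1 : ℕ → Finset (Fin 7 → V) := fun c => univ.filter fun y : Fin 7 → V =>
    Function.Injective y ∧ Cp7 E m c y
  have hsub : Q7 E m ⊆ Q0 ∪ (range 32).biUnion Q1 := by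
    intro y hy
    obtain ⟨-, ⟨i1, c1⟩, i2, c2⟩ := mem_filter.mp hy
    by_cases h56 : y 5 = y 6
    · exact mem_union_left _ (mem_filter.mpr ⟨hy, h56⟩)
    · refine mem_union_right _ ?_
      obtain ⟨c, hc, hcc⟩ := exists_code (f := fun a : Fin 5 => E (y a.castSucc.castSucc) (y 5) (y 6))
        (fun a => hE.b _ _ _)
      refine mem_biUnion.mpr ⟨c, mem_range.mpr hc, mem_filter.mpr ⟨mem_univ _, ?_, cp7_of m c y c1 c2 hcc⟩⟩
      have k1 : ∀ i j : Fin 7, i < j → y i ≠ y j := by
        intro i j hij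
        rcases Nat.lt_or_ge j.val 6 with hj | hj
        · have hi : i.val < 6 := lt_trans hij hj
          intro h
          have := @i1 ⟨i.val, hi⟩ ⟨j.val, hj⟩ h
          exact hij.ne (Fin.ext (Fin.mk.inj_iff.mp this))
        · have hj6 : j = 6 := Fin.ext (by have := j.isLt; omega)
          subst hj6
          rcases Nat.lt_or_ge i.val 5 with hi | hi
          · intro h
            have h2 : (fun t : Fin 6 => y ((5 : Fin 7).succAbove t)) ⟨i.val, by omega⟩ =
                (fun t : Fin 6 => y ((5 : Fin 7).succAbove t)) 5 := by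
              have e1 : ((5 : Fin 7).succAbove ⟨i.val, by omega⟩) = i := by
                rw [Fin.succAbove_of_castSucc_lt]
                · rfl
                · exact hi
              change y ((5 : Fin 7).succAbove ⟨i.val, by omega⟩) = y ((5 : Fin 7).succAbove 5)
              rw [e1]
              exact h
            have := i2 h2
            have h3 := Fin.mk.inj_iff.mp this
            change i.val = 5 at h3
            omega
          · have hi5 : i = 5 := Fin.ext (by have : i.val < 6 := hij; change i.val = 5; omega)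
            rw [hi5]
            exact h56
      intro i j hij
      rcases lt_trichotomy i j with h1 | h1 | h1
      · exact absurd hij (k1 i j h1)
      · exact h1
      · exact absurd hij.symm (k1 j i h1)
  have h0 : Q0.card ≤ Fintype.card V ^ 6 := by
    have h1 : Q0.card ≤ (univ : Finset (Fin 6 → V)).card := by
      refine card_le_card_of_injOn (fun y t => y t.castSucc) (fun _ _ => mem_coe.mpr (mem_univ _)) ?_
      intro y hy y' hy' h
      have a1 := (mem_filter.mp (mem_coe.mp hy)).2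
      have a2 := (mem_filter.mp (mem_coe.mp hy')).2
      funext t
      have hz : ∀ s : Fin 6, y s.castSucc = y' s.castSucc := fun s => congrFun h s
      fin_cases t
      · exact hz 0
      · exact hz 1
      · exact hz 2
      · exact hz 3
      · exact hz 4
      · exact hz 5
      · exact a1.symm.trans ((hz 5).trans a2)
    rwa [card_univ, Fintype.card_fun, Fintype.card_fin] at h1
  have h1 : ∀ c ∈ range 32, (Q1 c).card ≤ B * Fintype.card V := by
    intro c hc
    rcases wit_sound hE hK (nall_lt hW c (mem_range.mp hc)) with h | ⟨f, hf, e, he, h⟩ |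
      ⟨q, hq, e, he, h⟩ | ⟨m', hm', e, he, h⟩
    · have : Q1 c = ∅ := by
        rw [eq_empty_iff_forall_notMem]
        intro y hy
        obtain ⟨-, a, b⟩ := mem_filter.mp hy
        exact h y a b
      rw [this, card_empty]
      exact Nat.zero_le _
    · have h2 := card_pullC (V := V) e he (Q1 c)
        ((univ : Finset (Fin 5 → V)).filter fun x => Function.Injective x ∧ Cp5 E f x) ?_
      · rw [show 7 - 5 = 2 from rfl] at h2
        refine h2.trans ?_
        calc cp5 E f * Fintype.card V ^ 2 = cp5 E f * Fintype.card V * Fintype.card V := by ring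
          _ ≤ B * Fintype.card V := Nat.mul_le_mul_right _ (hB5 f hf)
      · intro y hy
        obtain ⟨-, a, b⟩ := mem_filter.mp hy
        exact mem_filter.mpr ⟨mem_univ _, a.comp he, h y a b⟩
    · have h2 := card_pullC (V := V) e he (Q1 c)
        ((univ : Finset (Fin 6 → V)).filter fun x => Function.Injective x ∧
          sp6 (fun i j k => E (x i) (x j) (x k)) = q) ?_
      · rw [show 7 - 6 = 1 from rfl, pow_one] at h2
        exact h2.trans (Nat.mul_le_mul_right _ (hB6 q hq))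
      · intro y hy
        obtain ⟨-, a, b⟩ := mem_filter.mp hy
        exact mem_filter.mpr ⟨mem_univ _, a.comp he, h y a b⟩
    · have h2 := card_pullC (V := V) e he (Q1 c)
        ((univ : Finset (Fin 6 → V)).filter fun x => Function.Injective x ∧ Copy E m' x) ?_
      · rw [show 7 - 6 = 1 from rfl, pow_one] at h2
        exact h2.trans (Nat.mul_le_mul_right _ (hB m' hm'))
      · intro y hy
        obtain ⟨-, a, b⟩ := mem_filter.mp hy
        exact mem_filter.mpr ⟨mem_univ _, a.comp he, h y a b⟩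
  calc (Q7 E m).card ≤ (Q0 ∪ (range 32).biUnion Q1).card := card_le_card hsub
    _ ≤ Q0.card + ((range 32).biUnion Q1).card := card_union_le _ _
    _ ≤ Fintype.card V ^ 6 + (range 32).card * (B * Fintype.card V) :=
        Nat.add_le_add h0 (card_biUnion_le_card_mul _ _ _ h1)
    _ = _ := by rw [card_range]

/-- the patterns with a negligible number of copies -/
def Negl (F5 S6 : List ℕ) (m : ℕ) : Prop :=
  ∀ k : ℕ, ∃ K n0 : ℕ, ∀ (V : Type) [Fintype V] (E : V → V → V → ℕ), Cl F5 S6 K E →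
    n0 ≤ Fintype.card V → k * cp E m ≤ Fintype.card V ^ 6

theorem negl_list {F5 S6 : List ℕ} : ∀ (L : List ℕ), (∀ m ∈ L, Negl F5 S6 m) → ∀ k : ℕ,
    ∃ K n0 : ℕ, ∀ (V : Type) [Fintype V] (E : V → V → V → ℕ), Cl F5 S6 K E →
      n0 ≤ Fintype.card V → ∀ m ∈ L, k * cp E m ≤ Fintype.card V ^ 6
  | [], _, _ => ⟨0, 0, fun _ _ _ _ _ m hm => absurd hm List.not_mem_nil⟩
  | m :: L, h, k => by
    obtain ⟨K1, n1, h1⟩ := h m (List.mem_cons_self ..) k
    obtain ⟨K2, n2, h2⟩ := negl_list L (fun m' hm' => h m' (List.mem_cons_of_mem _ hm')) k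
    refine ⟨max K1 K2, max n1 n2, fun V _ E hC hn m' hm' => ?_⟩
    rcases List.mem_cons.mp hm' with rfl | hm'
    · exact h1 V E (hC.mono (le_max_left _ _)) ((le_max_left _ _).trans hn)
    · exact h2 V E (hC.mono (le_max_right _ _)) ((le_max_right _ _).trans hn) m' hm'

theorem step_negl {F5 S6 L : List ℕ} {m : ℕ} {W : List (ℕ × ℕ × ℕ)}
    (hW : stepB F5 S6 L m W = true) (hL : ∀ m' ∈ L, Negl F5 S6 m') : Negl F5 S6 m := by
  intro k
  obtain ⟨K1, n1, h1⟩ := negl_list L hL (64 * (k ^ 2 + 1))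
  refine ⟨max K1 (64 * (k ^ 2 + 1)), max n1 (2 * k ^ 2), fun V _ E hC hn => ?_⟩
  have hn1 : n1 ≤ Fintype.card V := (le_max_left _ _).trans hn
  have hn2 : 2 * k ^ 2 ≤ Fintype.card V := (le_max_right _ _).trans hn
  have hC1 := hC.mono (le_max_left K1 (64 * (k ^ 2 + 1)))
  have hC2 := hC.mono (le_max_right K1 (64 * (k ^ 2 + 1)))
  have hB : ∀ m' ∈ L, cp E m' ≤ Fintype.card V ^ 6 / (64 * (k ^ 2 + 1)) := fun m' hm' =>
    (Nat.le_div_iff_mul_le (by positivity)).mpr (by rw [mul_comm]; exact h1 V E hC1 hn1 m' hm')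
  have hB6 : ∀ q ∈ S6, c6 E q ≤ Fintype.card V ^ 6 / (64 * (k ^ 2 + 1)) := fun q hq =>
    (Nat.le_div_iff_mul_le (by positivity)).mpr (by rw [mul_comm]; exact hC2.s6 q hq)
  have hB5 : ∀ f ∈ F5, cp5 E f * Fintype.card V ≤ Fintype.card V ^ 6 / (64 * (k ^ 2 + 1)) :=
    fun f hf => (Nat.le_div_iff_mul_le (by positivity)).mpr (by
      calc cp5 E f * Fintype.card V * (64 * (k ^ 2 + 1)) =
            (64 * (k ^ 2 + 1) * cp5 E f) * Fintype.card V := by ring
        _ ≤ Fintype.card V ^ 5 * Fintype.card V := Nat.mul_le_mul_right _ (hC2.f5 f hf)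
        _ = Fintype.card V ^ 6 := by ring)
  have h2 := step_count hC.sy hC.k4 hW hB5 hB6 hB
  set n := Fintype.card V with hn'
  set B := n ^ 6 / (64 * (k ^ 2 + 1)) with hBd
  have h3 : B * (64 * (k ^ 2 + 1)) ≤ n ^ 6 := Nat.div_mul_le_self _ _
  have h4 : (k * cp E m) ^ 2 ≤ (n ^ 6) ^ 2 := by
    have h5 : k ^ 2 * (n ^ 5 * (n ^ 6 + 32 * (B * n))) ≤ n ^ 12 := by
      have a1 : 2 * (k ^ 2 * n ^ 11) ≤ n ^ 12 := by
        calc 2 * (k ^ 2 * n ^ 11) = (2 * k ^ 2) * n ^ 11 := by ring
          _ ≤ n * n ^ 11 := Nat.mul_le_mul_right _ hn2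
          _ = n ^ 12 := by ring
      have a2 : 2 * (k ^ 2 * (32 * (B * n ^ 6))) ≤ n ^ 12 := by
        calc 2 * (k ^ 2 * (32 * (B * n ^ 6))) = (B * (64 * k ^ 2)) * n ^ 6 := by ring
          _ ≤ (B * (64 * (k ^ 2 + 1))) * n ^ 6 :=
              Nat.mul_le_mul_right _ (Nat.mul_le_mul_left _ (by omega))
          _ ≤ n ^ 6 * n ^ 6 := Nat.mul_le_mul_right _ h3
          _ = n ^ 12 := by ring
      have a3 : k ^ 2 * (n ^ 5 * (n ^ 6 + 32 * (B * n))) =
          k ^ 2 * n ^ 11 + k ^ 2 * (32 * (B * n ^ 6)) := by ring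
      omega
    calc (k * cp E m) ^ 2 = k ^ 2 * cp E m ^ 2 := by ring
      _ ≤ k ^ 2 * (n ^ 5 * (n ^ 6 + 32 * (B * n))) := Nat.mul_le_mul_left _ h2
      _ ≤ n ^ 12 := h5
      _ = (n ^ 6) ^ 2 := by ring
  exact (Nat.pow_le_pow_iff_left (by norm_num)).mp h4

/-- the check of a chain of patterns -/
def chainB (F5 S6 : List ℕ) : List (ℕ × List (ℕ × ℕ × ℕ)) → List ℕ → Bool
  | [], _ => true
  | (m, W) :: R, L => stepB F5 S6 L m W && chainB F5 S6 R (m :: L)

theorem chain_negl {F5 S6 : List ℕ} : ∀ (D : List (ℕ × List (ℕ × ℕ × ℕ))) (L : List ℕ),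
    chainB F5 S6 D L = true → (∀ m ∈ L, Negl F5 S6 m) → ∀ p ∈ D, Negl F5 S6 p.1
  | [], _, _, _, p, hp => absurd hp List.not_mem_nil
  | (m, W) :: R, L, h, hL, p, hp => by
    unfold chainB at h
    rw [Bool.and_eq_true] at h
    have h1 := step_negl h.1 hL
    rcases List.mem_cons.mp hp with rfl | hp
    · exact h1
    · refine chain_negl R (m :: L) h.2 ?_ p hp
      intro m' hm'
      rcases List.mem_cons.mp hm' with rfl | hm'
      · exact h1
      · exact hL m' hm'

/-- the sets which are counted -/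
noncomputable def sp5c (E : V → V → V → ℕ) (f : ℕ) : Finset (Fin 5 → V) :=
  univ.filter fun x => Function.Injective x ∧ Cp5 E f x
noncomputable def sq6 (E : V → V → V → ℕ) (q : ℕ) : Finset (Fin 6 → V) :=
  univ.filter fun x => Function.Injective x ∧ sp6 (fun i j k => E (x i) (x j) (x k)) = q
noncomputable def sp6c (E : V → V → V → ℕ) (m : ℕ) : Finset (Fin 6 → V) :=
  univ.filter fun x => Function.Injective x ∧ Copy E m x

theorem mem_sp5c {f : ℕ} {x : Fin 5 → V} : x ∈ sp5c E f ↔ Function.Injective x ∧ Cp5 E f x := by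
  unfold sp5c
  rw [mem_filter]
  exact ⟨fun h => h.2, fun h => ⟨mem_univ _, h⟩⟩
theorem mem_sq6 {q : ℕ} {x : Fin 6 → V} : x ∈ sq6 E q ↔ Function.Injective x ∧
    sp6 (fun i j k => E (x i) (x j) (x k)) = q := by
  unfold sq6
  rw [mem_filter]
  exact ⟨fun h => h.2, fun h => ⟨mem_univ _, h⟩⟩
theorem mem_sp6c {m : ℕ} {x : Fin 6 → V} : x ∈ sp6c E m ↔ Function.Injective x ∧ Copy E m x := by
  unfold sp6c
  rw [mem_filter]
  exact ⟨fun h => h.2, fun h => ⟨mem_univ _, h⟩⟩
theorem cp5_eq (f : ℕ) : cp5 E f = (sp5c E f).card := rfl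
theorem c6_eq (q : ℕ) : c6 E q = (sq6 E q).card := rfl
theorem cp_eq (m : ℕ) : cp E m = (sp6c E m).card := rfl

/-- relabelling -/
theorem cp_iso (hE : Sy E) {c p : ℕ} (h : isoB c m p = true) : cp E c ≤ cp E m := by
  refine card_le_card_of_injOn (fun x => x ∘ gp p) ?_ ?_
  · intro x hx
    obtain ⟨-, h1, h2⟩ := mem_filter.mp (mem_coe.mp hx)
    obtain ⟨h3, h4⟩ := copy_of_iso hE h h2
    exact mem_coe.mpr (mem_filter.mpr ⟨mem_univ _, h1.comp h3, h4⟩)
  · intro x hx y hy hxy
    obtain ⟨-, h1, h2⟩ := mem_filter.mp (mem_coe.mp hx)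
    obtain ⟨h3, -⟩ := copy_of_iso hE h h2
    have h5 : Function.Surjective (gp p) := Finite.surjective_of_injective h3
    funext i
    obtain ⟨j, rfl⟩ := h5 i
    exact congrFun hxy j

theorem negl_iso {F5 S6 : List ℕ} {c p : ℕ} (h : isoB c m p = true) (hm : Negl F5 S6 m) :
    Negl F5 S6 c := by
  intro k
  obtain ⟨K, n0, h1⟩ := hm k
  exact ⟨K, n0, fun V _ E hC hn =>
    (Nat.mul_le_mul_left _ (cp_iso hC.sy h)).trans (h1 V E hC hn)⟩

end
end Pool.Agent.TH773.CL
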