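import Pool.Agent.TH773.CL.Cnt

/-! Chains of negligible patterns (generated data, checked by the kernel). -/

set_option autoImplicit false
set_option maxRecDepth 100000
set_option maxHeartbeats 4000000

namespace Pool.Agent.TH773.CL
open Pool.Agent.H37R3.Cop

/-- chain for the class with five-vertex codes `[3, 7]` and edge numbers `[]` -/
def DF0 : List (ℕ × List (ℕ × ℕ × ℕ)) := [
  (78030, [(1, 3409, 3), (1, 7520, 7), (1, 3409, 7), (1, 11616, 7), (1, 3402, 7), (1, 7520, 7), (0, 3409, 0), (0, 3409, 0), (1, 3409, 3), (0, 3416, 0), (1, 3409, 7), (0, 3416, 0), (1, 3402, 7), (0, 3416, 0), (0, 3409, 0), (0, 3416, 0), (1, 3409, 3), (0, 3424, 0), (1, 3409, 7), (0, 3424, 0), (1, 3402, 7), (0, 3424, 0), (0, 3409, 0), (0, 3424, 0), (1, 3409, 3), (0, 3416, 0), (1, 3409, 7), (0, 3416, 0), (1, 3402, 7), (0, 3416, 0), (0, 3409, 0), (0, 3416, 0)]),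
  (885787, [(1, 3418, 3), (1, 7522, 3), (1, 3418, 3), (0, 3400, 0), (1, 3418, 7), (1, 7522, 7), (1, 3418, 7), (0, 3400, 0), (1, 3411, 7), (1, 7522, 3), (1, 3411, 7), (0, 3400, 0), (0, 3418, 0), (0, 3418, 0), (0, 3418, 0), (0, 3400, 0), (1, 3418, 3), (0, 3424, 0), (1, 3418, 3), (0, 3400, 0), (0, 3426, 0), (0, 3424, 0), (0, 3426, 0), (0, 3400, 0), (0, 3427, 0), (0, 3424, 0), (0, 3427, 0), (0, 3400, 0), (0, 3418, 0), (0, 3424, 0), (0, 3418, 0), (0, 3400, 0)]),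
  (605310, [(1, 7523, 3), (1, 7523, 3), (1, 11619, 3), (0, 3400, 0), (1, 7523, 3), (0, 3408, 0), (0, 3409, 0), (0, 3400, 0), (1, 7523, 7), (0, 3416, 0), (1, 11619, 7), (0, 3400, 0), (1, 7523, 7), (0, 3408, 0), (0, 3409, 0), (0, 3400, 0), (1, 7516, 7), (0, 3424, 0), (1, 11612, 7), (0, 3400, 0), (1, 7516, 7), (0, 3408, 0), (0, 3409, 0), (0, 3400, 0), (0, 3427, 0), (0, 3416, 0), (0, 3427, 0), (0, 3400, 0), (0, 3427, 0), (0, 3408, 0), (0, 3409, 0), (0, 3400, 0)]),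
  (241131, [(1, 19802, 3), (1, 19802, 3), (1, 19802, 3), (0, 3400, 0), (1, 19802, 7), (0, 3408, 0), (1, 19802, 7), (0, 3400, 0), (1, 19795, 7), (0, 3416, 0), (1, 19795, 7), (0, 3400, 0), (0, 3418, 0), (0, 3408, 0), (0, 3418, 0), (0, 3400, 0), (3, 217812, 78030), (0, 3424, 0), (0, 3425, 0), (0, 3400, 0), (3, 81249, 885787), (0, 3408, 0), (0, 3425, 0), (0, 3400, 0), (3, 109921, 885787), (0, 3416, 0), (0, 3425, 0), (0, 3400, 0), (0, 3418, 0), (0, 3408, 0), (0, 3425, 0), (0, 3400, 0)])]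

theorem DF0_ok : chainB [3, 7] [] DF0 [] = true := by decide +kernel

theorem DF0_0 : Negl [3, 7] [] 120663 := by
  obtain ⟨q, hq, e⟩ : ∃ q ∈ DF0, q.1 = 605310 := by decide +kernel
  have h := chain_negl DF0 [] DF0_ok (fun m hm => absurd hm List.not_mem_nil) q hq
  rw [e] at h
  exact negl_iso (p := 22737) (by decide +kernel) h

theorem DF0_1 : Negl [3, 7] [] 228027 := by
  obtain ⟨q, hq, e⟩ : ∃ q ∈ DF0, q.1 = 241131 := by decide +kernel
  have h := chain_negl DF0 [] DF0_ok (fun m hm => absurd hm List.not_mem_nil) q hq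
  rw [e] at h
  exact negl_iso (p := 153224) (by decide +kernel) h

/-- chain for the class with five-vertex codes `[3, 23]` and edge numbers `[]` -/
def DF1 : List (ℕ × List (ℕ × ℕ × ℕ)) := [
  (118960, [(1, 3409, 3), (1, 7520, 23), (1, 3418, 3), (1, 11616, 23), (1, 3417, 3), (1, 7520, 23), (0, 3409, 0), (0, 3409, 0), (1, 3409, 3), (1, 7520, 23), (0, 3417, 0), (0, 3417, 0), (0, 3418, 0), (0, 3418, 0), (0, 3409, 0), (0, 3409, 0), (1, 3409, 3), (0, 3424, 0), (1, 3418, 3), (0, 3424, 0), (1, 3417, 3), (0, 3424, 0), (0, 3409, 0), (0, 3424, 0), (1, 3409, 3), (0, 3424, 0), (0, 3417, 0), (0, 3424, 0), (0, 3418, 0), (0, 3424, 0), (0, 3409, 0), (0, 3424, 0)]),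
  (241131, [(1, 19802, 3), (1, 19802, 3), (1, 11617, 23), (0, 3400, 0), (1, 7514, 23), (0, 3408, 0), (1, 15713, 23), (0, 3400, 0), (1, 7507, 23), (0, 3416, 0), (1, 11617, 23), (0, 3400, 0), (0, 3418, 0), (0, 3408, 0), (0, 3418, 0), (0, 3400, 0), (1, 11596, 23), (0, 3424, 0), (0, 3425, 0), (0, 3400, 0), (1, 7514, 23), (0, 3408, 0), (0, 3425, 0), (0, 3400, 0), (1, 7507, 23), (0, 3416, 0), (0, 3425, 0), (0, 3400, 0), (0, 3418, 0), (0, 3408, 0), (0, 3425, 0), (0, 3400, 0)]),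
  (605310, [(1, 7523, 3), (1, 7523, 3), (1, 15697, 23), (0, 3400, 0), (1, 15690, 23), (0, 3408, 0), (0, 3409, 0), (0, 3400, 0), (3, 109921, 118960), (0, 3416, 0), (1, 19793, 23), (0, 3400, 0), (1, 19786, 23), (0, 3408, 0), (0, 3409, 0), (0, 3400, 0), (3, 142681, 118960), (0, 3424, 0), (1, 15697, 23), (0, 3400, 0), (1, 15690, 23), (0, 3408, 0), (0, 3409, 0), (0, 3400, 0), (0, 3427, 0), (0, 3416, 0), (0, 3427, 0), (0, 3400, 0), (0, 3427, 0), (0, 3408, 0), (0, 3409, 0), (0, 3400, 0)])]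

theorem DF1_ok : chainB [3, 23] [] DF1 [] = true := by decide +kernel

theorem DF1_0 : Negl [3, 23] [] 120663 := by
  obtain ⟨q, hq, e⟩ : ∃ q ∈ DF1, q.1 = 605310 := by decide +kernel
  have h := chain_negl DF1 [] DF1_ok (fun m hm => absurd hm List.not_mem_nil) q hq
  rw [e] at h
  exact negl_iso (p := 22737) (by decide +kernel) h

theorem DF1_1 : Negl [3, 23] [] 228027 := by
  obtain ⟨q, hq, e⟩ : ∃ q ∈ DF1, q.1 = 241131 := by decide +kernel
  have h := chain_negl DF1 [] DF1_ok (fun m hm => absurd hm List.not_mem_nil) q hq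
  rw [e] at h
  exact negl_iso (p := 153224) (by decide +kernel) h

/-- chain for the class with five-vertex codes `[3, 28]` and edge numbers `[]` -/
def DF2 : List (ℕ × List (ℕ × ℕ × ℕ)) := [
  (129203, [(1, 19793, 3), (1, 19793, 3), (1, 19802, 3), (1, 19802, 3), (1, 19801, 3), (0, 3408, 0), (0, 3409, 0), (0, 3408, 0), (1, 19793, 3), (0, 3416, 0), (0, 3417, 0), (0, 3416, 0), (0, 3418, 0), (0, 3408, 0), (0, 3409, 0), (0, 3408, 0), (1, 17525, 28), (0, 3424, 0), (1, 18101, 28), (0, 3424, 0), (1, 18037, 28), (0, 3408, 0), (0, 3409, 0), (0, 3408, 0), (1, 17525, 28), (0, 3416, 0), (0, 3417, 0), (0, 3416, 0), (0, 3418, 0), (0, 3408, 0), (0, 3409, 0), (0, 3408, 0)]),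
  (885787, [(1, 3418, 3), (1, 1717, 28), (1, 3418, 3), (0, 3400, 0), (1, 7523, 3), (1, 7523, 3), (1, 6389, 28), (0, 3400, 0), (1, 7522, 3), (1, 7522, 3), (1, 6325, 28), (0, 3400, 0), (0, 3418, 0), (0, 3418, 0), (0, 3418, 0), (0, 3400, 0), (1, 3418, 3), (0, 3424, 0), (1, 3418, 3), (0, 3400, 0), (0, 3426, 0), (0, 3424, 0), (0, 3426, 0), (0, 3400, 0), (0, 3427, 0), (0, 3424, 0), (0, 3427, 0), (0, 3400, 0), (0, 3418, 0), (0, 3424, 0), (0, 3418, 0), (0, 3400, 0)]),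
  (605310, [(1, 7523, 3), (1, 7523, 3), (1, 6389, 28), (0, 3400, 0), (1, 7523, 3), (0, 3408, 0), (0, 3409, 0), (0, 3400, 0), (3, 109920, 129203), (0, 3416, 0), (3, 109920, 129203), (0, 3400, 0), (3, 105824, 129203), (0, 3408, 0), (0, 3409, 0), (0, 3400, 0), (3, 142680, 129203), (0, 3424, 0), (3, 142680, 129203), (0, 3400, 0), (3, 138584, 129203), (0, 3408, 0), (0, 3409, 0), (0, 3400, 0), (0, 3427, 0), (0, 3416, 0), (0, 3427, 0), (0, 3400, 0), (0, 3427, 0), (0, 3408, 0), (0, 3409, 0), (0, 3400, 0)]),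
  (241131, [(1, 19802, 3), (1, 19802, 3), (1, 19802, 3), (0, 3400, 0), (3, 85336, 129203), (0, 3408, 0), (3, 85336, 129203), (0, 3400, 0), (3, 118096, 129203), (0, 3416, 0), (3, 118096, 129203), (0, 3400, 0), (0, 3418, 0), (0, 3408, 0), (0, 3418, 0), (0, 3400, 0), (1, 18101, 28), (0, 3424, 0), (0, 3425, 0), (0, 3400, 0), (3, 81249, 885787), (0, 3408, 0), (0, 3425, 0), (0, 3400, 0), (3, 109921, 885787), (0, 3416, 0), (0, 3425, 0), (0, 3400, 0), (0, 3418, 0), (0, 3408, 0), (0, 3425, 0), (0, 3400, 0)])]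

theorem DF2_ok : chainB [3, 28] [] DF2 [] = true := by decide +kernel

theorem DF2_0 : Negl [3, 28] [] 120663 := by
  obtain ⟨q, hq, e⟩ : ∃ q ∈ DF2, q.1 = 605310 := by decide +kernel
  have h := chain_negl DF2 [] DF2_ok (fun m hm => absurd hm List.not_mem_nil) q hq
  rw [e] at h
  exact negl_iso (p := 22737) (by decide +kernel) h

theorem DF2_1 : Negl [3, 28] [] 228027 := by
  obtain ⟨q, hq, e⟩ : ∃ q ∈ DF2, q.1 = 241131 := by decide +kernel
  have h := chain_negl DF2 [] DF2_ok (fun m hm => absurd hm List.not_mem_nil) q hq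
  rw [e] at h
  exact negl_iso (p := 153224) (by decide +kernel) h

/-- chain for the class with five-vertex codes `[3, 54]` and edge numbers `[]` -/
def DF3 : List (ℕ × List (ℕ × ℕ × ℕ)) := [
  (1013767, [(1, 27204, 54), (1, 27345, 54), (1, 27348, 54), (1, 27348, 54), (1, 27204, 54), (0, 3408, 0), (0, 3409, 0), (0, 3408, 0), (1, 27204, 54), (0, 3416, 0), (0, 3417, 0), (0, 3416, 0), (1, 27204, 54), (0, 3408, 0), (0, 3409, 0), (0, 3408, 0), (1, 27345, 54), (0, 3424, 0), (0, 3425, 0), (0, 3424, 0), (0, 3426, 0), (0, 3408, 0), (0, 3409, 0), (0, 3408, 0), (0, 3427, 0), (0, 3416, 0), (0, 3417, 0), (0, 3416, 0), (0, 3426, 0), (0, 3408, 0), (0, 3409, 0), (0, 3408, 0)]),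
  (969783, [(1, 3427, 3), (1, 27275, 54), (1, 3427, 3), (0, 3400, 0), (1, 3427, 3), (0, 3408, 0), (1, 3427, 3), (0, 3400, 0), (1, 27276, 54), (1, 27276, 54), (0, 3417, 0), (0, 3400, 0), (0, 3418, 0), (0, 3408, 0), (0, 3417, 0), (0, 3400, 0), (1, 27275, 54), (1, 27275, 54), (0, 3425, 0), (0, 3400, 0), (0, 3426, 0), (0, 3408, 0), (0, 3425, 0), (0, 3400, 0), (0, 3427, 0), (0, 3427, 0), (0, 3417, 0), (0, 3400, 0), (0, 3418, 0), (0, 3408, 0), (0, 3417, 0), (0, 3400, 0)]),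
  (605310, [(1, 7523, 3), (1, 7523, 3), (1, 11619, 3), (0, 3400, 0), (1, 7523, 3), (0, 3408, 0), (0, 3409, 0), (0, 3400, 0), (3, 11619, 1013767), (0, 3416, 0), (3, 11619, 1013767), (0, 3400, 0), (3, 7523, 1013767), (0, 3408, 0), (0, 3409, 0), (0, 3400, 0), (3, 11612, 1013767), (0, 3424, 0), (3, 11612, 1013767), (0, 3400, 0), (3, 7516, 1013767), (0, 3408, 0), (0, 3409, 0), (0, 3400, 0), (0, 3427, 0), (0, 3416, 0), (0, 3427, 0), (0, 3400, 0), (0, 3427, 0), (0, 3408, 0), (0, 3409, 0), (0, 3400, 0)]),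
  (751742, [(1, 27202, 54), (1, 11619, 3), (1, 11619, 3), (1, 11619, 3), (3, 92740, 969783), (0, 3408, 0), (0, 3409, 0), (0, 3408, 0), (1, 27202, 54), (0, 3416, 0), (0, 3417, 0), (0, 3416, 0), (3, 92740, 969783), (0, 3408, 0), (0, 3409, 0), (0, 3408, 0), (1, 27202, 54), (0, 3424, 0), (0, 3425, 0), (0, 3424, 0), (3, 92739, 969783), (0, 3408, 0), (0, 3409, 0), (0, 3408, 0), (0, 3427, 0), (0, 3416, 0), (0, 3417, 0), (0, 3416, 0), (0, 3427, 0), (0, 3408, 0), (0, 3409, 0), (0, 3408, 0)]),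
  (978105, [(1, 27276, 54), (1, 27276, 54), (3, 60056, 751742), (0, 3400, 0), (3, 92760, 751742), (0, 3408, 0), (3, 107317, 751742), (0, 3400, 0), (1, 27276, 54), (0, 3416, 0), (0, 3417, 0), (0, 3400, 0), (0, 3418, 0), (0, 3408, 0), (0, 3417, 0), (0, 3400, 0), (3, 107436, 969783), (3, 107436, 969783), (0, 3425, 0), (0, 3400, 0), (0, 3426, 0), (0, 3408, 0), (0, 3425, 0), (0, 3400, 0), (0, 3427, 0), (0, 3416, 0), (0, 3417, 0), (0, 3400, 0), (0, 3418, 0), (0, 3408, 0), (0, 3417, 0), (0, 3400, 0)])]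

theorem DF3_ok : chainB [3, 54] [] DF3 [] = true := by decide +kernel

theorem DF3_0 : Negl [3, 54] [] 120663 := by
  obtain ⟨q, hq, e⟩ : ∃ q ∈ DF3, q.1 = 605310 := by decide +kernel
  have h := chain_negl DF3 [] DF3_ok (fun m hm => absurd hm List.not_mem_nil) q hq
  rw [e] at h
  exact negl_iso (p := 22737) (by decide +kernel) h

theorem DF3_1 : Negl [3, 54] [] 228027 := by
  obtain ⟨q, hq, e⟩ : ∃ q ∈ DF3, q.1 = 978105 := by decide +kernel
  have h := chain_negl DF3 [] DF3_ok (fun m hm => absurd hm List.not_mem_nil) q hq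
  rw [e] at h
  exact negl_iso (p := 22737) (by decide +kernel) h

/-- chain for the class with five-vertex codes `[3, 62]` and edge numbers `[]` -/
def DF4 : List (ℕ × List (ℕ × ℕ × ℕ)) := [
  (118960, [(1, 3409, 3), (1, 19793, 3), (1, 3418, 3), (1, 19802, 3), (1, 3417, 3), (1, 19801, 3), (0, 3409, 0), (0, 3409, 0), (1, 3409, 3), (1, 19793, 3), (0, 3417, 0), (0, 3417, 0), (0, 3418, 0), (0, 3418, 0), (0, 3409, 0), (0, 3409, 0), (1, 3409, 3), (0, 3424, 0), (1, 3418, 3), (0, 3424, 0), (1, 3417, 3), (0, 3424, 0), (0, 3409, 0), (0, 3424, 0), (1, 3409, 3), (0, 3424, 0), (0, 3417, 0), (0, 3424, 0), (0, 3418, 0), (0, 3424, 0), (0, 3409, 0), (0, 3424, 0)]),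
  (260275, [(1, 19802, 3), (1, 19802, 3), (1, 19802, 3), (1, 19802, 3), (1, 17833, 62), (0, 3408, 0), (0, 3409, 0), (0, 3408, 0), (1, 18345, 62), (0, 3416, 0), (0, 3417, 0), (0, 3416, 0), (0, 3418, 0), (0, 3408, 0), (0, 3409, 0), (0, 3408, 0), (1, 10665, 62), (0, 3424, 0), (0, 3425, 0), (0, 3424, 0), (1, 14761, 62), (0, 3408, 0), (0, 3409, 0), (0, 3408, 0), (1, 10665, 62), (0, 3416, 0), (0, 3417, 0), (0, 3416, 0), (0, 3418, 0), (0, 3408, 0), (0, 3409, 0), (0, 3408, 0)]),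
  (605310, [(1, 7523, 3), (1, 7523, 3), (1, 11619, 3), (0, 3400, 0), (1, 7523, 3), (0, 3408, 0), (0, 3409, 0), (0, 3400, 0), (3, 109921, 118960), (0, 3416, 0), (3, 52560, 260275), (0, 3400, 0), (3, 85320, 260275), (0, 3408, 0), (0, 3409, 0), (0, 3400, 0), (3, 142681, 118960), (0, 3424, 0), (3, 48464, 260275), (0, 3400, 0), (3, 81224, 260275), (0, 3408, 0), (0, 3409, 0), (0, 3400, 0), (0, 3427, 0), (0, 3416, 0), (0, 3427, 0), (0, 3400, 0), (0, 3427, 0), (0, 3408, 0), (0, 3409, 0), (0, 3400, 0)]),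
  (241131, [(1, 19802, 3), (1, 19802, 3), (1, 19802, 3), (0, 3400, 0), (3, 92936, 605310), (0, 3408, 0), (3, 48480, 260275), (0, 3400, 0), (3, 125704, 605310), (0, 3416, 0), (3, 44384, 260275), (0, 3400, 0), (0, 3418, 0), (0, 3408, 0), (0, 3418, 0), (0, 3400, 0), (3, 146760, 260275), (0, 3424, 0), (0, 3425, 0), (0, 3400, 0), (3, 146760, 260275), (0, 3408, 0), (0, 3425, 0), (0, 3400, 0), (3, 142664, 260275), (0, 3416, 0), (0, 3425, 0), (0, 3400, 0), (0, 3418, 0), (0, 3408, 0), (0, 3425, 0), (0, 3400, 0)])]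

theorem DF4_ok : chainB [3, 62] [] DF4 [] = true := by decide +kernel

theorem DF4_0 : Negl [3, 62] [] 120663 := by
  obtain ⟨q, hq, e⟩ : ∃ q ∈ DF4, q.1 = 605310 := by decide +kernel
  have h := chain_negl DF4 [] DF4_ok (fun m hm => absurd hm List.not_mem_nil) q hq
  rw [e] at h
  exact negl_iso (p := 22737) (by decide +kernel) h

theorem DF4_1 : Negl [3, 62] [] 228027 := by
  obtain ⟨q, hq, e⟩ : ∃ q ∈ DF4, q.1 = 241131 := by decide +kernel
  have h := chain_negl DF4 [] DF4_ok (fun m hm => absurd hm List.not_mem_nil) q hq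
  rw [e] at h
  exact negl_iso (p := 153224) (by decide +kernel) h

/-- chain for the class with five-vertex codes `[3, 185]` and edge numbers `[]` -/
def DF5 : List (ℕ × List (ℕ × ℕ × ℕ)) := [
  (228027, [(1, 22737, 185), (1, 22737, 185), (1, 22737, 185), (1, 22737, 185), (1, 22737, 185), (0, 3408, 0), (0, 3409, 0), (0, 3408, 0), (1, 22737, 185), (0, 3416, 0), (0, 3417, 0), (0, 3416, 0), (1, 22737, 185), (0, 3408, 0), (0, 3409, 0), (0, 3408, 0), (1, 22737, 185), (0, 3424, 0), (0, 3425, 0), (0, 3424, 0), (1, 22737, 185), (0, 3408, 0), (0, 3409, 0), (0, 3408, 0), (1, 22737, 185), (0, 3416, 0), (0, 3417, 0), (0, 3416, 0), (1, 22737, 185), (0, 3408, 0), (0, 3409, 0), (0, 3408, 0)]),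
  (118960, [(1, 3409, 3), (1, 19793, 3), (1, 3418, 3), (1, 17320, 185), (1, 3417, 3), (1, 17832, 185), (0, 3409, 0), (0, 3409, 0), (1, 3409, 3), (1, 18344, 185), (0, 3417, 0), (0, 3417, 0), (0, 3418, 0), (0, 3418, 0), (0, 3409, 0), (0, 3409, 0), (1, 3409, 3), (0, 3424, 0), (1, 940, 185), (0, 3424, 0), (1, 3417, 3), (0, 3424, 0), (0, 3409, 0), (0, 3424, 0), (1, 3409, 3), (0, 3424, 0), (0, 3417, 0), (0, 3424, 0), (0, 3418, 0), (0, 3424, 0), (0, 3409, 0), (0, 3424, 0)]),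
  (605310, [(1, 7523, 3), (1, 7523, 3), (1, 11619, 3), (0, 3400, 0), (1, 7523, 3), (0, 3408, 0), (0, 3409, 0), (0, 3400, 0), (3, 109921, 118960), (0, 3416, 0), (1, 10153, 185), (0, 3400, 0), (1, 6058, 185), (0, 3408, 0), (0, 3409, 0), (0, 3400, 0), (3, 142681, 118960), (0, 3424, 0), (1, 10665, 185), (0, 3400, 0), (1, 6570, 185), (0, 3408, 0), (0, 3409, 0), (0, 3400, 0), (0, 3427, 0), (0, 3416, 0), (0, 3427, 0), (0, 3400, 0), (0, 3427, 0), (0, 3408, 0), (0, 3409, 0), (0, 3400, 0)])]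

theorem DF5_ok : chainB [3, 185] [] DF5 [] = true := by decide +kernel

theorem DF5_0 : Negl [3, 185] [] 120663 := by
  obtain ⟨q, hq, e⟩ : ∃ q ∈ DF5, q.1 = 605310 := by decide +kernel
  have h := chain_negl DF5 [] DF5_ok (fun m hm => absurd hm List.not_mem_nil) q hq
  rw [e] at h
  exact negl_iso (p := 22737) (by decide +kernel) h

theorem DF5_1 : Negl [3, 185] [] 228027 := by
  obtain ⟨q, hq, e⟩ : ∃ q ∈ DF5, q.1 = 228027 := by decide +kernel
  have h := chain_negl DF5 [] DF5_ok (fun m hm => absurd hm List.not_mem_nil) q hq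
  rw [e] at h
  exact negl_iso (p := 181896) (by decide +kernel) h

/-- chain for the class with five-vertex codes `[7, 54]` and edge numbers `[]` -/
def DF6 : List (ℕ × List (ℕ × ℕ × ℕ)) := [
  (88067, [(1, 27408, 54), (1, 7520, 7), (1, 27408, 54), (1, 15696, 7), (1, 15682, 7), (0, 3408, 0), (0, 3409, 0), (0, 3408, 0), (1, 27408, 54), (1, 7520, 7), (0, 3417, 0), (0, 3417, 0), (1, 19786, 7), (0, 3408, 0), (0, 3409, 0), (0, 3408, 0), (1, 7492, 7), (0, 3424, 0), (1, 15684, 7), (0, 3424, 0), (1, 7492, 7), (0, 3408, 0), (0, 3409, 0), (0, 3408, 0), (1, 7492, 7), (0, 3424, 0), (0, 3417, 0), (0, 3424, 0), (1, 7492, 7), (0, 3408, 0), (0, 3409, 0), (0, 3408, 0)]),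
  (96259, [(1, 27344, 54), (1, 7520, 7), (1, 27344, 54), (1, 19793, 7), (1, 27416, 54), (0, 3408, 0), (0, 3409, 0), (0, 3408, 0), (1, 27408, 54), (0, 3416, 0), (0, 3417, 0), (0, 3416, 0), (1, 19786, 7), (0, 3408, 0), (0, 3409, 0), (0, 3408, 0), (1, 7492, 7), (0, 3424, 0), (1, 27344, 54), (0, 3424, 0), (1, 7492, 7), (0, 3408, 0), (0, 3409, 0), (0, 3408, 0), (1, 7492, 7), (0, 3416, 0), (0, 3417, 0), (0, 3416, 0), (1, 7492, 7), (0, 3408, 0), (0, 3409, 0), (0, 3408, 0)]),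
  (241693, [(1, 27416, 54), (1, 7512, 7), (1, 27416, 54), (1, 11616, 7), (1, 27416, 54), (1, 7512, 7), (0, 3409, 0), (0, 3409, 0), (1, 7491, 7), (0, 3416, 0), (1, 19795, 7), (0, 3416, 0), (0, 3418, 0), (0, 3416, 0), (0, 3409, 0), (0, 3416, 0), (1, 11588, 7), (0, 3424, 0), (0, 3425, 0), (0, 3424, 0), (1, 15692, 7), (0, 3424, 0), (0, 3409, 0), (0, 3424, 0), (1, 7491, 7), (0, 3416, 0), (0, 3425, 0), (0, 3416, 0), (0, 3418, 0), (0, 3416, 0), (0, 3409, 0), (0, 3416, 0)]),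
  (149541, [(1, 27417, 54), (1, 27417, 54), (1, 3417, 7), (1, 11609, 7), (1, 27417, 54), (0, 3408, 0), (1, 3417, 7), (0, 3408, 0), (1, 3403, 7), (1, 11595, 7), (0, 3417, 0), (0, 3417, 0), (1, 3403, 7), (0, 3408, 0), (0, 3417, 0), (0, 3408, 0), (1, 3404, 7), (1, 11596, 7), (0, 3425, 0), (0, 3425, 0), (1, 3404, 7), (0, 3408, 0), (0, 3425, 0), (0, 3408, 0), (1, 3403, 7), (1, 11595, 7), (0, 3417, 0), (0, 3417, 0), (1, 3403, 7), (0, 3408, 0), (0, 3417, 0), (0, 3408, 0)]),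
  (522258, [(1, 27202, 54), (1, 27417, 54), (1, 27416, 54), (1, 27418, 54), (1, 27416, 54), (0, 3408, 0), (0, 3409, 0), (0, 3408, 0), (1, 27202, 54), (0, 3416, 0), (0, 3417, 0), (0, 3416, 0), (0, 3418, 0), (0, 3408, 0), (0, 3409, 0), (0, 3408, 0), (1, 27202, 54), (0, 3424, 0), (0, 3425, 0), (0, 3424, 0), (0, 3426, 0), (0, 3408, 0), (0, 3409, 0), (0, 3408, 0), (1, 27202, 54), (0, 3416, 0), (0, 3417, 0), (0, 3416, 0), (0, 3418, 0), (0, 3408, 0), (0, 3409, 0), (0, 3408, 0)]),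
  (224293, [(1, 27416, 54), (1, 27417, 54), (1, 27416, 54), (0, 3400, 0), (1, 27416, 54), (0, 3408, 0), (1, 27416, 54), (0, 3400, 0), (1, 11595, 7), (0, 3416, 0), (0, 3417, 0), (0, 3400, 0), (3, 207053, 88067), (0, 3408, 0), (0, 3417, 0), (0, 3400, 0), (1, 11596, 7), (0, 3424, 0), (0, 3425, 0), (0, 3400, 0), (3, 206605, 88067), (0, 3408, 0), (0, 3425, 0), (0, 3400, 0), (1, 11595, 7), (0, 3416, 0), (0, 3417, 0), (0, 3400, 0), (3, 207053, 96259), (0, 3408, 0), (0, 3417, 0), (0, 3400, 0)]),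
  (96461, [(1, 27203, 54), (1, 7520, 7), (1, 27408, 54), (1, 19801, 7), (1, 27203, 54), (0, 3408, 0), (0, 3409, 0), (0, 3408, 0), (1, 27408, 54), (0, 3416, 0), (0, 3417, 0), (0, 3416, 0), (1, 19787, 7), (0, 3408, 0), (0, 3409, 0), (0, 3408, 0), (1, 27203, 54), (0, 3424, 0), (3, 202781, 241693), (0, 3424, 0), (1, 27203, 54), (0, 3408, 0), (0, 3409, 0), (0, 3408, 0), (1, 7492, 7), (0, 3416, 0), (0, 3417, 0), (0, 3416, 0), (1, 7492, 7), (0, 3408, 0), (0, 3409, 0), (0, 3408, 0)]),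
  (111835, [(1, 27267, 54), (1, 11616, 7), (1, 27267, 54), (0, 3400, 0), (1, 19802, 7), (1, 19802, 7), (0, 3409, 0), (0, 3400, 0), (1, 19795, 7), (0, 3416, 0), (1, 19795, 7), (0, 3400, 0), (0, 3418, 0), (0, 3416, 0), (0, 3409, 0), (0, 3400, 0), (1, 27267, 54), (0, 3424, 0), (1, 27267, 54), (0, 3400, 0), (3, 206877, 241693), (0, 3424, 0), (0, 3409, 0), (0, 3400, 0), (1, 11588, 7), (0, 3416, 0), (1, 11588, 7), (0, 3400, 0), (0, 3418, 0), (0, 3416, 0), (0, 3409, 0), (0, 3400, 0)]),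
  (605310, [(3, 158361, 149541), (3, 158361, 149541), (3, 27299, 522258), (0, 3400, 0), (3, 27235, 522258), (0, 3408, 0), (0, 3409, 0), (0, 3400, 0), (1, 7523, 7), (0, 3416, 0), (1, 11619, 7), (0, 3400, 0), (1, 7523, 7), (0, 3408, 0), (0, 3409, 0), (0, 3400, 0), (1, 7516, 7), (0, 3424, 0), (1, 11612, 7), (0, 3400, 0), (1, 7516, 7), (0, 3408, 0), (0, 3409, 0), (0, 3400, 0), (0, 3427, 0), (0, 3416, 0), (0, 3427, 0), (0, 3400, 0), (0, 3427, 0), (0, 3408, 0), (0, 3409, 0), (0, 3400, 0)]),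
  (243175, [(1, 27338, 54), (1, 27338, 54), (3, 125712, 224293), (0, 3400, 0), (1, 19802, 7), (1, 19802, 7), (0, 3409, 0), (0, 3400, 0), (1, 19795, 7), (0, 3416, 0), (1, 19795, 7), (0, 3400, 0), (0, 3418, 0), (0, 3416, 0), (0, 3409, 0), (0, 3400, 0), (1, 27338, 54), (0, 3424, 0), (0, 3425, 0), (0, 3400, 0), (3, 211554, 96461), (0, 3424, 0), (0, 3409, 0), (0, 3400, 0), (3, 207619, 111835), (0, 3416, 0), (0, 3425, 0), (0, 3400, 0), (0, 3418, 0), (0, 3416, 0), (0, 3409, 0), (0, 3400, 0)])]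

theorem DF6_ok : chainB [7, 54] [] DF6 [] = true := by decide +kernel

theorem DF6_0 : Negl [7, 54] [] 120663 := by
  obtain ⟨q, hq, e⟩ : ∃ q ∈ DF6, q.1 = 605310 := by decide +kernel
  have h := chain_negl DF6 [] DF6_ok (fun m hm => absurd hm List.not_mem_nil) q hq
  rw [e] at h
  exact negl_iso (p := 22737) (by decide +kernel) h

theorem DF6_1 : Negl [7, 54] [] 228027 := by
  obtain ⟨q, hq, e⟩ : ∃ q ∈ DF6, q.1 = 243175 := by decide +kernel
  have h := chain_negl DF6 [] DF6_ok (fun m hm => absurd hm List.not_mem_nil) q hq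
  rw [e] at h
  exact negl_iso (p := 120968) (by decide +kernel) h

/-- chain for the class with five-vertex codes `[1, 7, 184]` and edge numbers `[]` -/
def DF7 : List (ℕ × List (ℕ × ℕ × ℕ)) := [
  (120663, [(1, 15106, 184), (1, 15106, 184), (1, 15106, 184), (0, 3400, 0), (1, 15106, 184), (1, 15106, 184), (0, 3409, 0), (0, 3400, 0), (1, 15106, 184), (1, 15106, 184), (0, 3417, 0), (0, 3400, 0), (0, 3418, 0), (0, 3418, 0), (0, 3409, 0), (0, 3400, 0), (1, 15106, 184), (0, 3424, 0), (1, 15106, 184), (0, 3400, 0), (1, 15106, 184), (0, 3424, 0), (0, 3409, 0), (0, 3400, 0), (1, 15106, 184), (0, 3424, 0), (0, 3417, 0), (0, 3400, 0), (0, 3418, 0), (0, 3424, 0), (0, 3409, 0), (0, 3400, 0)]),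
  (1150, [(1, 27344, 1), (1, 11592, 7), (1, 11585, 7), (0, 3400, 0), (1, 18346, 1), (1, 18344, 1), (1, 18345, 1), (0, 3400, 0), (1, 7512, 184), (1, 11592, 7), (1, 11585, 7), (0, 3400, 0), (1, 7512, 184), (1, 26245, 184), (1, 16811, 1), (0, 3400, 0), (1, 7520, 184), (1, 11592, 7), (1, 11585, 7), (0, 3400, 0), (1, 7520, 184), (1, 26757, 184), (1, 12716, 1), (0, 3400, 0), (1, 7512, 184), (1, 11592, 7), (1, 11585, 7), (0, 3400, 0), (1, 7512, 184), (1, 26245, 184), (1, 26253, 184), (0, 3400, 0)]),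
  (196620, [(1, 27344, 1), (1, 9128, 1), (1, 8617, 1), (1, 11616, 7), (1, 4522, 1), (1, 13224, 1), (1, 12713, 1), (1, 15712, 7), (1, 4523, 1), (1, 9128, 1), (1, 8617, 1), (1, 11616, 7), (1, 4522, 1), (1, 26245, 184), (1, 26253, 184), (1, 26245, 184), (1, 27344, 1), (0, 3424, 0), (0, 3425, 0), (0, 3424, 0), (1, 4522, 1), (0, 3424, 0), (0, 3425, 0), (0, 3424, 0), (1, 4523, 1), (0, 3424, 0), (0, 3425, 0), (0, 3424, 0), (1, 4522, 1), (0, 3424, 0), (0, 3425, 0), (0, 3424, 0)]),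
  (3968, [(1, 27416, 1), (1, 15688, 7), (1, 15681, 7), (0, 3400, 0), (1, 15682, 7), (0, 3408, 0), (1, 15681, 7), (0, 3400, 0), (1, 9131, 1), (1, 19784, 7), (1, 19777, 7), (0, 3400, 0), (1, 19778, 7), (0, 3408, 0), (1, 19777, 7), (0, 3400, 0), (1, 9132, 1), (1, 15688, 7), (1, 15681, 7), (0, 3400, 0), (1, 15682, 7), (0, 3408, 0), (1, 15681, 7), (0, 3400, 0), (1, 9131, 1), (1, 26821, 184), (1, 26829, 184), (0, 3400, 0), (1, 26837, 184), (0, 3408, 0), (1, 26829, 184), (0, 3400, 0)]),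
  (76873, [(1, 27345, 1), (1, 27345, 1), (1, 18345, 1), (0, 3400, 0), (1, 18346, 1), (0, 3408, 0), (1, 18345, 1), (0, 3400, 0), (1, 27409, 1), (0, 3416, 0), (1, 17835, 1), (0, 3400, 0), (1, 17323, 1), (0, 3408, 0), (1, 26253, 184), (0, 3400, 0), (1, 27345, 1), (0, 3424, 0), (1, 13740, 1), (0, 3400, 0), (1, 13228, 1), (0, 3408, 0), (1, 26765, 184), (0, 3400, 0), (3, 218211, 196620), (0, 3416, 0), (3, 92953, 3968), (0, 3400, 0), (3, 60186, 3968), (0, 3408, 0), (1, 26253, 184), (0, 3400, 0)]),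
  (78030, [(3, 9132, 3968), (1, 7520, 7), (1, 3409, 7), (1, 11616, 7), (1, 3402, 7), (1, 7520, 7), (0, 3409, 0), (0, 3409, 0), (1, 11609, 184), (0, 3416, 0), (1, 3409, 7), (0, 3416, 0), (1, 3402, 7), (0, 3416, 0), (0, 3409, 0), (0, 3416, 0), (1, 7492, 7), (0, 3424, 0), (1, 3409, 7), (0, 3424, 0), (1, 3402, 7), (0, 3424, 0), (0, 3409, 0), (0, 3424, 0), (1, 7492, 7), (0, 3416, 0), (1, 3409, 7), (0, 3416, 0), (1, 3402, 7), (0, 3416, 0), (0, 3409, 0), (0, 3416, 0)]),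
  (885787, [(3, 60186, 1150), (3, 60186, 1150), (1, 15690, 184), (0, 3400, 0), (1, 7504, 184), (1, 7522, 7), (1, 3418, 7), (0, 3400, 0), (1, 7512, 184), (1, 7523, 7), (1, 3411, 7), (0, 3400, 0), (0, 3418, 0), (0, 3418, 0), (0, 3418, 0), (0, 3400, 0), (1, 7508, 7), (0, 3424, 0), (1, 15690, 184), (0, 3400, 0), (0, 3426, 0), (0, 3424, 0), (0, 3426, 0), (0, 3400, 0), (0, 3427, 0), (0, 3424, 0), (0, 3427, 0), (0, 3400, 0), (0, 3418, 0), (0, 3424, 0), (0, 3418, 0), (0, 3400, 0)]),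
  (241131, [(3, 158417, 76873), (3, 158417, 76873), (1, 15690, 184), (0, 3400, 0), (1, 19793, 184), (0, 3408, 0), (1, 19802, 7), (0, 3400, 0), (1, 19801, 184), (0, 3416, 0), (1, 19795, 7), (0, 3400, 0), (0, 3418, 0), (0, 3408, 0), (0, 3418, 0), (0, 3400, 0), (3, 217812, 78030), (0, 3424, 0), (0, 3425, 0), (0, 3400, 0), (3, 81249, 885787), (0, 3408, 0), (0, 3425, 0), (0, 3400, 0), (3, 109921, 885787), (0, 3416, 0), (0, 3425, 0), (0, 3400, 0), (0, 3418, 0), (0, 3408, 0), (0, 3425, 0), (0, 3400, 0)])]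

theorem DF7_ok : chainB [1, 7, 184] [] DF7 [] = true := by decide +kernel

theorem DF7_0 : Negl [1, 7, 184] [] 120663 := by
  obtain ⟨q, hq, e⟩ : ∃ q ∈ DF7, q.1 = 120663 := by decide +kernel
  have h := chain_negl DF7 [] DF7_ok (fun m hm => absurd hm List.not_mem_nil) q hq
  rw [e] at h
  exact negl_iso (p := 181896) (by decide +kernel) h

theorem DF7_1 : Negl [1, 7, 184] [] 228027 := by
  obtain ⟨q, hq, e⟩ : ∃ q ∈ DF7, q.1 = 241131 := by decide +kernel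
  have h := chain_negl DF7 [] DF7_ok (fun m hm => absurd hm List.not_mem_nil) q hq
  rw [e] at h
  exact negl_iso (p := 153224) (by decide +kernel) h

/-- chain for the class with five-vertex codes `[1, 54, 184]` and edge numbers `[]` -/
def DF8 : List (ℕ × List (ℕ × ℕ × ℕ)) := [
  (120663, [(1, 15106, 184), (1, 15106, 184), (1, 15106, 184), (0, 3400, 0), (1, 15106, 184), (1, 15106, 184), (0, 3409, 0), (0, 3400, 0), (1, 15106, 184), (1, 15106, 184), (0, 3417, 0), (0, 3400, 0), (0, 3418, 0), (0, 3418, 0), (0, 3409, 0), (0, 3400, 0), (1, 15106, 184), (0, 3424, 0), (1, 15106, 184), (0, 3400, 0), (1, 15106, 184), (0, 3424, 0), (0, 3409, 0), (0, 3400, 0), (1, 15106, 184), (0, 3424, 0), (0, 3417, 0), (0, 3400, 0), (0, 3418, 0), (0, 3424, 0), (0, 3409, 0), (0, 3400, 0)]),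
  (3326, [(1, 27272, 54), (1, 27345, 1), (1, 27416, 1), (0, 3400, 0), (1, 27416, 1), (0, 3408, 0), (1, 27416, 1), (0, 3400, 0), (1, 27272, 54), (1, 27409, 1), (1, 11608, 184), (0, 3400, 0), (1, 7512, 184), (0, 3408, 0), (1, 26253, 184), (0, 3400, 0), (1, 27272, 54), (1, 27345, 1), (1, 11616, 184), (0, 3400, 0), (1, 7520, 184), (0, 3408, 0), (1, 26765, 184), (0, 3400, 0), (1, 27272, 54), (1, 26821, 184), (1, 11608, 184), (0, 3400, 0), (1, 7512, 184), (0, 3408, 0), (1, 26253, 184), (0, 3400, 0)]),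
  (1013767, [(1, 27204, 54), (1, 27345, 54), (1, 27348, 54), (1, 27348, 54), (1, 27204, 54), (0, 3408, 0), (0, 3409, 0), (0, 3408, 0), (1, 27204, 54), (0, 3416, 0), (0, 3417, 0), (0, 3416, 0), (1, 27204, 54), (0, 3408, 0), (0, 3409, 0), (0, 3408, 0), (1, 27345, 54), (0, 3424, 0), (0, 3425, 0), (0, 3424, 0), (0, 3426, 0), (0, 3408, 0), (0, 3409, 0), (0, 3408, 0), (0, 3427, 0), (0, 3416, 0), (0, 3417, 0), (0, 3416, 0), (0, 3426, 0), (0, 3408, 0), (0, 3409, 0), (0, 3408, 0)]),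
  (63984, [(1, 27202, 54), (3, 158416, 3326), (3, 158417, 3326), (3, 158417, 3326), (1, 27203, 54), (0, 3408, 0), (0, 3409, 0), (0, 3408, 0), (1, 27202, 54), (0, 3416, 0), (0, 3417, 0), (0, 3416, 0), (0, 3418, 0), (0, 3408, 0), (0, 3409, 0), (0, 3408, 0), (1, 27202, 54), (1, 11617, 184), (1, 11616, 184), (1, 26693, 184), (1, 27203, 54), (0, 3408, 0), (0, 3409, 0), (0, 3408, 0), (1, 27202, 54), (0, 3416, 0), (0, 3417, 0), (0, 3416, 0), (0, 3418, 0), (0, 3408, 0), (0, 3409, 0), (0, 3408, 0)]),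
  (52417, [(1, 27329, 54), (1, 27275, 54), (1, 27330, 54), (0, 3400, 0), (1, 27329, 54), (0, 3408, 0), (1, 27416, 1), (0, 3400, 0), (1, 27409, 1), (1, 27409, 1), (0, 3417, 0), (0, 3400, 0), (0, 3418, 0), (0, 3408, 0), (0, 3417, 0), (0, 3400, 0), (1, 27329, 54), (1, 27275, 54), (1, 27330, 54), (0, 3400, 0), (1, 27329, 54), (0, 3408, 0), (1, 26765, 184), (0, 3400, 0), (3, 101713, 63984), (1, 26821, 184), (0, 3417, 0), (0, 3400, 0), (0, 3418, 0), (0, 3408, 0), (0, 3417, 0), (0, 3400, 0)]),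
  (3528, [(1, 27272, 54), (1, 27345, 1), (1, 27416, 1), (0, 3400, 0), (1, 27416, 1), (0, 3408, 0), (1, 27416, 1), (0, 3400, 0), (1, 27272, 54), (1, 27409, 1), (1, 17835, 1), (0, 3400, 0), (3, 13226, 52417), (0, 3408, 0), (1, 26253, 184), (0, 3400, 0), (1, 27272, 54), (1, 27345, 1), (1, 13740, 1), (0, 3400, 0), (3, 17322, 52417), (0, 3408, 0), (1, 26765, 184), (0, 3400, 0), (1, 27272, 54), (1, 26821, 184), (1, 26829, 184), (0, 3400, 0), (3, 17322, 52417), (0, 3408, 0), (1, 26253, 184), (0, 3400, 0)]),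
  (863259, [(1, 27344, 54), (1, 27345, 1), (1, 27344, 54), (0, 3400, 0), (3, 7522, 1013767), (0, 3408, 0), (3, 137130, 52417), (0, 3400, 0), (3, 7523, 1013767), (0, 3416, 0), (3, 136619, 52417), (0, 3400, 0), (3, 7523, 1013767), (0, 3408, 0), (1, 26253, 184), (0, 3400, 0), (1, 27344, 54), (0, 3424, 0), (1, 27344, 54), (0, 3400, 0), (0, 3426, 0), (0, 3408, 0), (0, 3426, 0), (0, 3400, 0), (0, 3427, 0), (0, 3416, 0), (0, 3427, 0), (0, 3400, 0), (0, 3426, 0), (0, 3408, 0), (0, 3426, 0), (0, 3400, 0)]),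
  (79671, [(1, 27416, 54), (1, 27417, 1), (1, 27416, 54), (0, 3400, 0), (1, 15696, 184), (1, 27417, 1), (0, 3409, 0), (0, 3400, 0), (3, 44376, 863259), (0, 3416, 0), (3, 158347, 3528), (0, 3400, 0), (1, 19792, 184), (0, 3416, 0), (0, 3409, 0), (0, 3400, 0), (3, 44384, 863259), (0, 3424, 0), (3, 125580, 3528), (0, 3400, 0), (1, 15696, 184), (0, 3424, 0), (0, 3409, 0), (0, 3400, 0), (3, 44384, 863259), (0, 3416, 0), (1, 26829, 184), (0, 3400, 0), (1, 26837, 184), (0, 3416, 0), (0, 3409, 0), (0, 3400, 0)]),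
  (445694, [(1, 27272, 54), (1, 27417, 54), (1, 27416, 1), (0, 3400, 0), (1, 27416, 1), (0, 3408, 0), (1, 27416, 1), (0, 3400, 0), (1, 27272, 54), (3, 158402, 79671), (0, 3417, 0), (0, 3400, 0), (0, 3418, 0), (0, 3408, 0), (0, 3417, 0), (0, 3400, 0), (1, 27272, 54), (3, 125698, 79671), (0, 3425, 0), (0, 3400, 0), (0, 3426, 0), (0, 3408, 0), (0, 3425, 0), (0, 3400, 0), (1, 27272, 54), (1, 26821, 184), (0, 3417, 0), (0, 3400, 0), (0, 3418, 0), (0, 3408, 0), (0, 3417, 0), (0, 3400, 0)]),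
  (449718, [(1, 27416, 1), (1, 27417, 54), (1, 27416, 1), (0, 3400, 0), (1, 27416, 1), (0, 3408, 0), (0, 3409, 0), (0, 3400, 0), (3, 27275, 445694), (3, 158402, 79671), (0, 3417, 0), (0, 3400, 0), (0, 3418, 0), (0, 3408, 0), (0, 3409, 0), (0, 3400, 0), (3, 27276, 445694), (3, 125698, 79671), (0, 3425, 0), (0, 3400, 0), (0, 3426, 0), (0, 3408, 0), (0, 3409, 0), (0, 3400, 0), (3, 27276, 445694), (1, 26821, 184), (0, 3417, 0), (0, 3400, 0), (0, 3418, 0), (0, 3408, 0), (0, 3409, 0), (0, 3400, 0)]),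
  (978105, [(1, 27276, 54), (1, 27276, 54), (3, 92865, 445694), (0, 3400, 0), (3, 60098, 445694), (0, 3408, 0), (3, 140203, 445694), (0, 3400, 0), (1, 27276, 54), (0, 3416, 0), (0, 3417, 0), (0, 3400, 0), (0, 3418, 0), (0, 3408, 0), (0, 3417, 0), (0, 3400, 0), (3, 140203, 449718), (3, 140203, 449718), (0, 3425, 0), (0, 3400, 0), (0, 3426, 0), (0, 3408, 0), (0, 3425, 0), (0, 3400, 0), (0, 3427, 0), (0, 3416, 0), (0, 3417, 0), (0, 3400, 0), (0, 3418, 0), (0, 3408, 0), (0, 3417, 0), (0, 3400, 0)])]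

theorem DF8_ok : chainB [1, 54, 184] [] DF8 [] = true := by decide +kernel

theorem DF8_0 : Negl [1, 54, 184] [] 120663 := by
  obtain ⟨q, hq, e⟩ : ∃ q ∈ DF8, q.1 = 120663 := by decide +kernel
  have h := chain_negl DF8 [] DF8_ok (fun m hm => absurd hm List.not_mem_nil) q hq
  rw [e] at h
  exact negl_iso (p := 181896) (by decide +kernel) h

theorem DF8_1 : Negl [1, 54, 184] [] 228027 := by
  obtain ⟨q, hq, e⟩ : ∃ q ∈ DF8, q.1 = 978105 := by decide +kernel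
  have h := chain_negl DF8 [] DF8_ok (fun m hm => absurd hm List.not_mem_nil) q hq
  rw [e] at h
  exact negl_iso (p := 22737) (by decide +kernel) h

/-- chain for the class with five-vertex codes `[1, 62, 184]` and edge numbers `[]` -/
def DF9 : List (ℕ × List (ℕ × ℕ × ℕ)) := [
  (120663, [(1, 15106, 184), (1, 15106, 184), (1, 15106, 184), (0, 3400, 0), (1, 15106, 184), (1, 15106, 184), (0, 3409, 0), (0, 3400, 0), (1, 15106, 184), (1, 15106, 184), (0, 3417, 0), (0, 3400, 0), (0, 3418, 0), (0, 3418, 0), (0, 3409, 0), (0, 3400, 0), (1, 15106, 184), (0, 3424, 0), (1, 15106, 184), (0, 3400, 0), (1, 15106, 184), (0, 3424, 0), (0, 3409, 0), (0, 3400, 0), (1, 15106, 184), (0, 3424, 0), (0, 3417, 0), (0, 3400, 0), (0, 3418, 0), (0, 3424, 0), (0, 3409, 0), (0, 3400, 0)]),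
  (228027, [(1, 27418, 1), (1, 27418, 1), (1, 27418, 1), (1, 27418, 1), (1, 13736, 62), (0, 3408, 0), (0, 3409, 0), (0, 3408, 0), (1, 10152, 62), (0, 3416, 0), (0, 3417, 0), (0, 3416, 0), (1, 17833, 62), (0, 3408, 0), (0, 3409, 0), (0, 3408, 0), (1, 10665, 62), (0, 3424, 0), (0, 3425, 0), (0, 3424, 0), (1, 13736, 62), (0, 3408, 0), (0, 3409, 0), (0, 3408, 0), (1, 10152, 62), (0, 3416, 0), (0, 3417, 0), (0, 3416, 0), (1, 26837, 184), (0, 3408, 0), (0, 3409, 0), (0, 3408, 0)])]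

theorem DF9_ok : chainB [1, 62, 184] [] DF9 [] = true := by decide +kernel

theorem DF9_0 : Negl [1, 62, 184] [] 120663 := by
  obtain ⟨q, hq, e⟩ : ∃ q ∈ DF9, q.1 = 120663 := by decide +kernel
  have h := chain_negl DF9 [] DF9_ok (fun m hm => absurd hm List.not_mem_nil) q hq
  rw [e] at h
  exact negl_iso (p := 181896) (by decide +kernel) h

theorem DF9_1 : Negl [1, 62, 184] [] 228027 := by
  obtain ⟨q, hq, e⟩ : ∃ q ∈ DF9, q.1 = 228027 := by decide +kernel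
  have h := chain_negl DF9 [] DF9_ok (fun m hm => absurd hm List.not_mem_nil) q hq
  rw [e] at h
  exact negl_iso (p := 181896) (by decide +kernel) h

/-- chain for the class with five-vertex codes `[54, 62, 184]` and edge numbers `[]` -/
def DF10 : List (ℕ × List (ℕ × ℕ × ℕ)) := [
  (120663, [(1, 15106, 184), (1, 15106, 184), (1, 15106, 184), (0, 3400, 0), (1, 15106, 184), (1, 15106, 184), (0, 3409, 0), (0, 3400, 0), (1, 15106, 184), (1, 15106, 184), (0, 3417, 0), (0, 3400, 0), (0, 3418, 0), (0, 3418, 0), (0, 3409, 0), (0, 3400, 0), (1, 15106, 184), (0, 3424, 0), (1, 15106, 184), (0, 3400, 0), (1, 15106, 184), (0, 3424, 0), (0, 3409, 0), (0, 3400, 0), (1, 15106, 184), (0, 3424, 0), (0, 3417, 0), (0, 3400, 0), (0, 3418, 0), (0, 3424, 0), (0, 3409, 0), (0, 3400, 0)]),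
  (849939, [(1, 27394, 54), (1, 16810, 62), (1, 27394, 54), (1, 16810, 62), (1, 27395, 54), (0, 3408, 0), (0, 3409, 0), (0, 3408, 0), (1, 27394, 54), (0, 3416, 0), (0, 3417, 0), (0, 3416, 0), (0, 3418, 0), (0, 3408, 0), (0, 3409, 0), (0, 3408, 0), (1, 2474, 62), (1, 6570, 62), (1, 2474, 62), (1, 26693, 184), (0, 3426, 0), (0, 3408, 0), (0, 3409, 0), (0, 3408, 0), (0, 3427, 0), (0, 3416, 0), (0, 3417, 0), (0, 3416, 0), (0, 3418, 0), (0, 3408, 0), (0, 3409, 0), (0, 3408, 0)]),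
  (933054, [(1, 27340, 54), (1, 27340, 54), (1, 13228, 62), (0, 3400, 0), (1, 27340, 54), (0, 3408, 0), (0, 3409, 0), (0, 3400, 0), (1, 11609, 184), (0, 3416, 0), (1, 10156, 62), (0, 3400, 0), (1, 6060, 62), (0, 3408, 0), (0, 3409, 0), (0, 3400, 0), (3, 146769, 849939), (3, 146769, 849939), (0, 3425, 0), (0, 3400, 0), (0, 3426, 0), (0, 3408, 0), (0, 3409, 0), (0, 3400, 0), (0, 3427, 0), (0, 3416, 0), (0, 3425, 0), (0, 3400, 0), (0, 3426, 0), (0, 3408, 0), (0, 3409, 0), (0, 3400, 0)])]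

theorem DF10_ok : chainB [54, 62, 184] [] DF10 [] = true := by decide +kernel

theorem DF10_0 : Negl [54, 62, 184] [] 120663 := by
  obtain ⟨q, hq, e⟩ : ∃ q ∈ DF10, q.1 = 120663 := by decide +kernel
  have h := chain_negl DF10 [] DF10_ok (fun m hm => absurd hm List.not_mem_nil) q hq
  rw [e] at h
  exact negl_iso (p := 181896) (by decide +kernel) h

theorem DF10_1 : Negl [54, 62, 184] [] 228027 := by
  obtain ⟨q, hq, e⟩ : ∃ q ∈ DF10, q.1 = 933054 := by decide +kernel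
  have h := chain_negl DF10 [] DF10_ok (fun m hm => absurd hm List.not_mem_nil) q hq
  rw [e] at h
  exact negl_iso (p := 55504) (by decide +kernel) h

/-- chain for the class with five-vertex codes `[1, 20, 23, 184]` and edge numbers `[]` -/
def DF11 : List (ℕ × List (ℕ × ℕ × ℕ)) := [
  (120663, [(1, 15106, 184), (1, 15106, 184), (1, 15106, 184), (0, 3400, 0), (1, 15106, 184), (1, 15106, 184), (0, 3409, 0), (0, 3400, 0), (1, 15106, 184), (1, 15106, 184), (0, 3417, 0), (0, 3400, 0), (0, 3418, 0), (0, 3418, 0), (0, 3409, 0), (0, 3400, 0), (1, 15106, 184), (0, 3424, 0), (1, 15106, 184), (0, 3400, 0), (1, 15106, 184), (0, 3424, 0), (0, 3409, 0), (0, 3400, 0), (1, 15106, 184), (0, 3424, 0), (0, 3417, 0), (0, 3400, 0), (0, 3418, 0), (0, 3424, 0), (0, 3409, 0), (0, 3400, 0)]),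
  (447671, [(1, 27416, 1), (1, 15682, 184), (1, 27416, 1), (0, 3400, 0), (1, 3418, 23), (1, 19800, 20), (0, 3409, 0), (0, 3400, 0), (1, 3411, 23), (1, 19778, 184), (0, 3417, 0), (0, 3400, 0), (0, 3418, 0), (0, 3418, 0), (0, 3409, 0), (0, 3400, 0), (1, 3412, 23), (1, 15682, 184), (0, 3425, 0), (0, 3400, 0), (0, 3426, 0), (0, 3426, 0), (0, 3409, 0), (0, 3400, 0), (1, 3411, 23), (1, 26821, 184), (0, 3417, 0), (0, 3400, 0), (0, 3418, 0), (0, 3418, 0), (0, 3409, 0), (0, 3400, 0)]),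
  (228027, [(1, 27418, 1), (1, 27418, 1), (1, 27418, 1), (1, 27418, 1), (1, 19802, 20), (0, 3408, 0), (0, 3409, 0), (0, 3408, 0), (1, 19795, 20), (0, 3416, 0), (0, 3417, 0), (0, 3416, 0), (3, 158275, 447671), (0, 3408, 0), (0, 3409, 0), (0, 3408, 0), (1, 15700, 20), (0, 3424, 0), (0, 3425, 0), (0, 3424, 0), (3, 125508, 447671), (0, 3408, 0), (0, 3409, 0), (0, 3408, 0), (3, 92740, 447671), (0, 3416, 0), (0, 3417, 0), (0, 3416, 0), (1, 26837, 184), (0, 3408, 0), (0, 3409, 0), (0, 3408, 0)])]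

theorem DF11_ok : chainB [1, 20, 23, 184] [] DF11 [] = true := by decide +kernel

theorem DF11_0 : Negl [1, 20, 23, 184] [] 120663 := by
  obtain ⟨q, hq, e⟩ : ∃ q ∈ DF11, q.1 = 120663 := by decide +kernel
  have h := chain_negl DF11 [] DF11_ok (fun m hm => absurd hm List.not_mem_nil) q hq
  rw [e] at h
  exact negl_iso (p := 181896) (by decide +kernel) h

theorem DF11_1 : Negl [1, 20, 23, 184] [] 228027 := by
  obtain ⟨q, hq, e⟩ : ∃ q ∈ DF11, q.1 = 228027 := by decide +kernel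
  have h := chain_negl DF11 [] DF11_ok (fun m hm => absurd hm List.not_mem_nil) q hq
  rw [e] at h
  exact negl_iso (p := 181896) (by decide +kernel) h

/-- chain for the class with five-vertex codes `[1, 20, 28, 184]` and edge numbers `[]` -/
def DF12 : List (ℕ × List (ℕ × ℕ × ℕ)) := [
  (120663, [(1, 15106, 184), (1, 15106, 184), (1, 15106, 184), (0, 3400, 0), (1, 15106, 184), (1, 15106, 184), (0, 3409, 0), (0, 3400, 0), (1, 15106, 184), (1, 15106, 184), (0, 3417, 0), (0, 3400, 0), (0, 3418, 0), (0, 3418, 0), (0, 3409, 0), (0, 3400, 0), (1, 15106, 184), (0, 3424, 0), (1, 15106, 184), (0, 3400, 0), (1, 15106, 184), (0, 3424, 0), (0, 3409, 0), (0, 3400, 0), (1, 15106, 184), (0, 3424, 0), (0, 3417, 0), (0, 3400, 0), (0, 3418, 0), (0, 3424, 0), (0, 3409, 0), (0, 3400, 0)]),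
  (228027, [(1, 27418, 1), (1, 27418, 1), (1, 27418, 1), (1, 27418, 1), (1, 19802, 20), (0, 3408, 0), (0, 3409, 0), (0, 3408, 0), (1, 19795, 20), (0, 3416, 0), (0, 3417, 0), (0, 3416, 0), (1, 19802, 28), (0, 3408, 0), (0, 3409, 0), (0, 3408, 0), (1, 15700, 20), (0, 3424, 0), (0, 3425, 0), (0, 3424, 0), (1, 15714, 28), (0, 3408, 0), (0, 3409, 0), (0, 3408, 0), (1, 11619, 28), (0, 3416, 0), (0, 3417, 0), (0, 3416, 0), (1, 26837, 184), (0, 3408, 0), (0, 3409, 0), (0, 3408, 0)])]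

theorem DF12_ok : chainB [1, 20, 28, 184] [] DF12 [] = true := by decide +kernel

theorem DF12_0 : Negl [1, 20, 28, 184] [] 120663 := by
  obtain ⟨q, hq, e⟩ : ∃ q ∈ DF12, q.1 = 120663 := by decide +kernel
  have h := chain_negl DF12 [] DF12_ok (fun m hm => absurd hm List.not_mem_nil) q hq
  rw [e] at h
  exact negl_iso (p := 181896) (by decide +kernel) h

theorem DF12_1 : Negl [1, 20, 28, 184] [] 228027 := by
  obtain ⟨q, hq, e⟩ : ∃ q ∈ DF12, q.1 = 228027 := by decide +kernel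
  have h := chain_negl DF12 [] DF12_ok (fun m hm => absurd hm List.not_mem_nil) q hq
  rw [e] at h
  exact negl_iso (p := 181896) (by decide +kernel) h

/-- chain for the class with five-vertex codes `[20, 23, 54, 184]` and edge numbers `[]` -/
def DF13 : List (ℕ × List (ℕ × ℕ × ℕ)) := [
  (120663, [(1, 15106, 184), (1, 15106, 184), (1, 15106, 184), (0, 3400, 0), (1, 15106, 184), (1, 15106, 184), (0, 3409, 0), (0, 3400, 0), (1, 15106, 184), (1, 15106, 184), (0, 3417, 0), (0, 3400, 0), (0, 3418, 0), (0, 3418, 0), (0, 3409, 0), (0, 3400, 0), (1, 15106, 184), (0, 3424, 0), (1, 15106, 184), (0, 3400, 0), (1, 15106, 184), (0, 3424, 0), (0, 3409, 0), (0, 3400, 0), (1, 15106, 184), (0, 3424, 0), (0, 3417, 0), (0, 3400, 0), (0, 3418, 0), (0, 3424, 0), (0, 3409, 0), (0, 3400, 0)]),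
  (31228, [(1, 27202, 54), (1, 19784, 20), (1, 19777, 20), (1, 19792, 23), (1, 27203, 54), (0, 3408, 0), (0, 3409, 0), (0, 3408, 0), (1, 27202, 54), (0, 3416, 0), (0, 3417, 0), (0, 3416, 0), (1, 19778, 23), (0, 3408, 0), (0, 3409, 0), (0, 3408, 0), (1, 27202, 54), (1, 11617, 184), (1, 11616, 184), (1, 26693, 184), (1, 27203, 54), (0, 3408, 0), (0, 3409, 0), (0, 3408, 0), (1, 27202, 54), (0, 3416, 0), (0, 3417, 0), (0, 3416, 0), (1, 7492, 20), (0, 3408, 0), (0, 3409, 0), (0, 3408, 0)]),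
  (447671, [(1, 27417, 54), (1, 15682, 184), (1, 27418, 54), (0, 3400, 0), (1, 3418, 23), (1, 19800, 20), (0, 3409, 0), (0, 3400, 0), (1, 3411, 23), (1, 19778, 184), (0, 3417, 0), (0, 3400, 0), (0, 3418, 0), (0, 3418, 0), (0, 3409, 0), (0, 3400, 0), (1, 3412, 23), (1, 15682, 184), (0, 3425, 0), (0, 3400, 0), (0, 3426, 0), (0, 3426, 0), (0, 3409, 0), (0, 3400, 0), (1, 3411, 23), (1, 26821, 184), (0, 3417, 0), (0, 3400, 0), (0, 3418, 0), (0, 3418, 0), (0, 3409, 0), (0, 3400, 0)]),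
  (849939, [(1, 27394, 54), (1, 19784, 20), (1, 19777, 20), (3, 136885, 31228), (1, 27395, 54), (0, 3408, 0), (0, 3409, 0), (0, 3408, 0), (1, 27394, 54), (0, 3416, 0), (0, 3417, 0), (0, 3416, 0), (0, 3418, 0), (0, 3408, 0), (0, 3409, 0), (0, 3408, 0), (1, 7492, 20), (3, 50869, 31228), (3, 18101, 31228), (1, 26693, 184), (0, 3426, 0), (0, 3408, 0), (0, 3409, 0), (0, 3408, 0), (0, 3427, 0), (0, 3416, 0), (0, 3417, 0), (0, 3416, 0), (0, 3418, 0), (0, 3408, 0), (0, 3409, 0), (0, 3408, 0)]),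
  (933054, [(1, 27340, 54), (1, 27340, 54), (1, 15697, 23), (0, 3400, 0), (1, 15690, 23), (0, 3408, 0), (0, 3409, 0), (0, 3400, 0), (1, 11609, 184), (0, 3416, 0), (3, 92931, 447671), (0, 3400, 0), (3, 60163, 447671), (0, 3408, 0), (0, 3409, 0), (0, 3400, 0), (3, 146769, 849939), (3, 146769, 849939), (0, 3425, 0), (0, 3400, 0), (0, 3426, 0), (0, 3408, 0), (0, 3409, 0), (0, 3400, 0), (0, 3427, 0), (0, 3416, 0), (0, 3425, 0), (0, 3400, 0), (0, 3426, 0), (0, 3408, 0), (0, 3409, 0), (0, 3400, 0)])]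

theorem DF13_ok : chainB [20, 23, 54, 184] [] DF13 [] = true := by decide +kernel

theorem DF13_0 : Negl [20, 23, 54, 184] [] 120663 := by
  obtain ⟨q, hq, e⟩ : ∃ q ∈ DF13, q.1 = 120663 := by decide +kernel
  have h := chain_negl DF13 [] DF13_ok (fun m hm => absurd hm List.not_mem_nil) q hq
  rw [e] at h
  exact negl_iso (p := 181896) (by decide +kernel) h

theorem DF13_1 : Negl [20, 23, 54, 184] [] 228027 := by
  obtain ⟨q, hq, e⟩ : ∃ q ∈ DF13, q.1 = 933054 := by decide +kernel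
  have h := chain_negl DF13 [] DF13_ok (fun m hm => absurd hm List.not_mem_nil) q hq
  rw [e] at h
  exact negl_iso (p := 55504) (by decide +kernel) h

/-- chain for the class with five-vertex codes `[20, 28, 54, 184]` and edge numbers `[]` -/
def DF14 : List (ℕ × List (ℕ × ℕ × ℕ)) := [
  (120663, [(1, 15106, 184), (1, 15106, 184), (1, 15106, 184), (0, 3400, 0), (1, 15106, 184), (1, 15106, 184), (0, 3409, 0), (0, 3400, 0), (1, 15106, 184), (1, 15106, 184), (0, 3417, 0), (0, 3400, 0), (0, 3418, 0), (0, 3418, 0), (0, 3409, 0), (0, 3400, 0), (1, 15106, 184), (0, 3424, 0), (1, 15106, 184), (0, 3400, 0), (1, 15106, 184), (0, 3424, 0), (0, 3409, 0), (0, 3400, 0), (1, 15106, 184), (0, 3424, 0), (0, 3417, 0), (0, 3400, 0), (0, 3418, 0), (0, 3424, 0), (0, 3409, 0), (0, 3400, 0)]),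
  (849939, [(1, 27394, 54), (1, 19784, 20), (1, 19777, 20), (1, 19784, 28), (1, 27395, 54), (0, 3408, 0), (0, 3409, 0), (0, 3408, 0), (1, 27394, 54), (0, 3416, 0), (0, 3417, 0), (0, 3416, 0), (0, 3418, 0), (0, 3408, 0), (0, 3409, 0), (0, 3408, 0), (1, 7492, 20), (1, 7520, 28), (1, 3425, 28), (1, 26693, 184), (0, 3426, 0), (0, 3408, 0), (0, 3409, 0), (0, 3408, 0), (0, 3427, 0), (0, 3416, 0), (0, 3417, 0), (0, 3416, 0), (0, 3418, 0), (0, 3408, 0), (0, 3409, 0), (0, 3408, 0)]),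
  (447671, [(1, 27417, 54), (1, 15682, 184), (1, 27418, 54), (0, 3400, 0), (1, 27417, 54), (1, 19800, 20), (0, 3409, 0), (0, 3400, 0), (1, 19779, 20), (1, 19778, 184), (0, 3417, 0), (0, 3400, 0), (0, 3418, 0), (0, 3418, 0), (0, 3409, 0), (0, 3400, 0), (1, 15684, 20), (1, 15682, 184), (0, 3425, 0), (0, 3400, 0), (0, 3426, 0), (0, 3426, 0), (0, 3409, 0), (0, 3400, 0), (1, 3427, 28), (1, 26821, 184), (0, 3417, 0), (0, 3400, 0), (0, 3418, 0), (0, 3418, 0), (0, 3409, 0), (0, 3400, 0)]),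
  (933054, [(1, 27340, 54), (1, 27340, 54), (1, 27348, 54), (0, 3400, 0), (1, 27340, 54), (0, 3408, 0), (0, 3409, 0), (0, 3400, 0), (1, 11609, 184), (0, 3416, 0), (3, 92931, 447671), (0, 3400, 0), (3, 60163, 447671), (0, 3408, 0), (0, 3409, 0), (0, 3400, 0), (3, 146769, 849939), (3, 146769, 849939), (0, 3425, 0), (0, 3400, 0), (0, 3426, 0), (0, 3408, 0), (0, 3409, 0), (0, 3400, 0), (0, 3427, 0), (0, 3416, 0), (0, 3425, 0), (0, 3400, 0), (0, 3426, 0), (0, 3408, 0), (0, 3409, 0), (0, 3400, 0)])]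

theorem DF14_ok : chainB [20, 28, 54, 184] [] DF14 [] = true := by decide +kernel

theorem DF14_0 : Negl [20, 28, 54, 184] [] 120663 := by
  obtain ⟨q, hq, e⟩ : ∃ q ∈ DF14, q.1 = 120663 := by decide +kernel
  have h := chain_negl DF14 [] DF14_ok (fun m hm => absurd hm List.not_mem_nil) q hq
  rw [e] at h
  exact negl_iso (p := 181896) (by decide +kernel) h

theorem DF14_1 : Negl [20, 28, 54, 184] [] 228027 := by
  obtain ⟨q, hq, e⟩ : ∃ q ∈ DF14, q.1 = 933054 := by decide +kernel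
  have h := chain_negl DF14 [] DF14_ok (fun m hm => absurd hm List.not_mem_nil) q hq
  rw [e] at h
  exact negl_iso (p := 55504) (by decide +kernel) h

/-- chain for the class with five-vertex codes `[23, 28, 54, 184]` and edge numbers `[]` -/
def DF15 : List (ℕ × List (ℕ × ℕ × ℕ)) := [
  (120663, [(1, 15106, 184), (1, 15106, 184), (1, 15106, 184), (0, 3400, 0), (1, 15106, 184), (1, 15106, 184), (0, 3409, 0), (0, 3400, 0), (1, 15106, 184), (1, 15106, 184), (0, 3417, 0), (0, 3400, 0), (0, 3418, 0), (0, 3418, 0), (0, 3409, 0), (0, 3400, 0), (1, 15106, 184), (0, 3424, 0), (1, 15106, 184), (0, 3400, 0), (1, 15106, 184), (0, 3424, 0), (0, 3409, 0), (0, 3400, 0), (1, 15106, 184), (0, 3424, 0), (0, 3417, 0), (0, 3400, 0), (0, 3418, 0), (0, 3424, 0), (0, 3409, 0), (0, 3400, 0)]),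
  (32752, [(1, 27344, 54), (1, 19784, 23), (1, 19777, 23), (0, 3400, 0), (1, 19778, 23), (0, 3408, 0), (0, 3409, 0), (0, 3400, 0), (1, 19779, 23), (0, 3416, 0), (0, 3417, 0), (0, 3400, 0), (1, 19778, 23), (0, 3408, 0), (0, 3409, 0), (0, 3400, 0), (1, 7520, 184), (1, 27345, 54), (1, 27344, 54), (0, 3400, 0), (1, 7520, 184), (0, 3408, 0), (0, 3409, 0), (0, 3400, 0), (1, 7520, 184), (0, 3416, 0), (0, 3417, 0), (0, 3400, 0), (1, 7520, 184), (0, 3408, 0), (0, 3409, 0), (0, 3400, 0)]),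
  (118008, [(1, 27272, 54), (1, 15712, 23), (1, 27330, 54), (0, 3400, 0), (1, 27329, 54), (0, 3408, 0), (1, 19793, 28), (0, 3400, 0), (1, 27272, 54), (3, 13429, 32752), (0, 3417, 0), (0, 3400, 0), (0, 3418, 0), (0, 3408, 0), (0, 3417, 0), (0, 3400, 0), (1, 27272, 54), (0, 3424, 0), (1, 27330, 54), (0, 3400, 0), (1, 27329, 54), (0, 3408, 0), (1, 15684, 23), (0, 3400, 0), (1, 27272, 54), (0, 3424, 0), (0, 3417, 0), (0, 3400, 0), (0, 3418, 0), (0, 3408, 0), (0, 3417, 0), (0, 3400, 0)]),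
  (97095, [(1, 27408, 54), (1, 27345, 54), (1, 6197, 28), (1, 19793, 23), (1, 27416, 54), (0, 3408, 0), (0, 3409, 0), (0, 3408, 0), (1, 27408, 54), (0, 3416, 0), (0, 3417, 0), (0, 3416, 0), (1, 19786, 23), (0, 3408, 0), (0, 3409, 0), (0, 3408, 0), (1, 27345, 54), (0, 3424, 0), (3, 6571, 118008), (0, 3424, 0), (1, 15713, 184), (0, 3408, 0), (0, 3409, 0), (0, 3408, 0), (1, 11617, 184), (0, 3416, 0), (0, 3417, 0), (0, 3416, 0), (1, 26837, 184), (0, 3408, 0), (0, 3409, 0), (0, 3408, 0)]),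
  (1041409, [(1, 27267, 54), (1, 11592, 23), (1, 11585, 23), (0, 3400, 0), (1, 7504, 184), (3, 44384, 97095), (3, 11617, 97095), (0, 3400, 0), (1, 27268, 54), (0, 3416, 0), (0, 3417, 0), (0, 3400, 0), (0, 3418, 0), (0, 3416, 0), (0, 3417, 0), (0, 3400, 0), (1, 27267, 54), (0, 3424, 0), (0, 3425, 0), (0, 3400, 0), (0, 3426, 0), (0, 3424, 0), (0, 3425, 0), (0, 3400, 0), (0, 3427, 0), (0, 3416, 0), (0, 3417, 0), (0, 3400, 0), (0, 3418, 0), (0, 3416, 0), (0, 3417, 0), (0, 3400, 0)]),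
  (228027, [(1, 27344, 54), (1, 27409, 54), (1, 27344, 54), (3, 60186, 1041409), (1, 27417, 54), (0, 3408, 0), (0, 3409, 0), (0, 3408, 0), (1, 27409, 54), (0, 3416, 0), (0, 3417, 0), (0, 3416, 0), (1, 19802, 28), (0, 3408, 0), (0, 3409, 0), (0, 3408, 0), (1, 27344, 54), (0, 3424, 0), (0, 3425, 0), (0, 3424, 0), (1, 15714, 28), (0, 3408, 0), (0, 3409, 0), (0, 3408, 0), (1, 11619, 28), (0, 3416, 0), (0, 3417, 0), (0, 3416, 0), (1, 26837, 184), (0, 3408, 0), (0, 3409, 0), (0, 3408, 0)])]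

theorem DF15_ok : chainB [23, 28, 54, 184] [] DF15 [] = true := by decide +kernel

theorem DF15_0 : Negl [23, 28, 54, 184] [] 120663 := by
  obtain ⟨q, hq, e⟩ : ∃ q ∈ DF15, q.1 = 120663 := by decide +kernel
  have h := chain_negl DF15 [] DF15_ok (fun m hm => absurd hm List.not_mem_nil) q hq
  rw [e] at h
  exact negl_iso (p := 181896) (by decide +kernel) h

theorem DF15_1 : Negl [23, 28, 54, 184] [] 228027 := by
  obtain ⟨q, hq, e⟩ : ∃ q ∈ DF15, q.1 = 228027 := by decide +kernel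
  have h := chain_negl DF15 [] DF15_ok (fun m hm => absurd hm List.not_mem_nil) q hq
  rw [e] at h
  exact negl_iso (p := 181896) (by decide +kernel) h

/-- chain for the class with five-vertex codes `[23, 29, 54, 184]` and edge numbers `[]` -/
def DG : List (ℕ × List (ℕ × ℕ × ℕ)) := [
  (120663, [(1, 15106, 184), (1, 15106, 184), (1, 15106, 184), (0, 3400, 0), (1, 15106, 184), (1, 15106, 184), (0, 3409, 0), (0, 3400, 0), (1, 15106, 184), (1, 15106, 184), (0, 3417, 0), (0, 3400, 0), (0, 3418, 0), (0, 3418, 0), (0, 3409, 0), (0, 3400, 0), (1, 15106, 184), (0, 3424, 0), (1, 15106, 184), (0, 3400, 0), (1, 15106, 184), (0, 3424, 0), (0, 3409, 0), (0, 3400, 0), (1, 15106, 184), (0, 3424, 0), (0, 3417, 0), (0, 3400, 0), (0, 3418, 0), (0, 3424, 0), (0, 3409, 0), (0, 3400, 0)]),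
  (447671, [(1, 27417, 54), (1, 15682, 184), (1, 27418, 54), (0, 3400, 0), (1, 3418, 23), (1, 27417, 54), (0, 3409, 0), (0, 3400, 0), (1, 3411, 23), (1, 19778, 184), (0, 3417, 0), (0, 3400, 0), (0, 3418, 0), (0, 3418, 0), (0, 3409, 0), (0, 3400, 0), (1, 3412, 23), (1, 15682, 184), (0, 3425, 0), (0, 3400, 0), (0, 3426, 0), (0, 3426, 0), (0, 3409, 0), (0, 3400, 0), (1, 3411, 23), (1, 26821, 184), (0, 3417, 0), (0, 3400, 0), (0, 3418, 0), (0, 3418, 0), (0, 3409, 0), (0, 3400, 0)]),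
  (97095, [(1, 27408, 54), (1, 27345, 54), (1, 27408, 54), (1, 6197, 29), (1, 27416, 54), (0, 3408, 0), (0, 3409, 0), (0, 3408, 0), (1, 27408, 54), (0, 3416, 0), (0, 3417, 0), (0, 3416, 0), (1, 19786, 23), (0, 3408, 0), (0, 3409, 0), (0, 3408, 0), (1, 27345, 54), (0, 3424, 0), (1, 4405, 29), (0, 3424, 0), (1, 15713, 184), (0, 3408, 0), (0, 3409, 0), (0, 3408, 0), (1, 11617, 184), (0, 3416, 0), (0, 3417, 0), (0, 3416, 0), (1, 26837, 184), (0, 3408, 0), (0, 3409, 0), (0, 3408, 0)]),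
  (1041409, [(1, 27267, 54), (1, 11592, 23), (1, 11585, 23), (0, 3400, 0), (1, 7504, 184), (3, 44384, 97095), (3, 11617, 97095), (0, 3400, 0), (1, 27268, 54), (0, 3416, 0), (0, 3417, 0), (0, 3400, 0), (0, 3418, 0), (0, 3416, 0), (0, 3417, 0), (0, 3400, 0), (1, 27267, 54), (0, 3424, 0), (0, 3425, 0), (0, 3400, 0), (0, 3426, 0), (0, 3424, 0), (0, 3425, 0), (0, 3400, 0), (0, 3427, 0), (0, 3416, 0), (0, 3417, 0), (0, 3400, 0), (0, 3418, 0), (0, 3416, 0), (0, 3417, 0), (0, 3400, 0)]),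
  (228027, [(1, 27344, 54), (1, 27409, 54), (1, 27344, 54), (3, 60186, 1041409), (1, 27417, 54), (0, 3408, 0), (0, 3409, 0), (0, 3408, 0), (1, 27409, 54), (0, 3416, 0), (0, 3417, 0), (0, 3416, 0), (3, 158275, 447671), (0, 3408, 0), (0, 3409, 0), (0, 3408, 0), (1, 27344, 54), (0, 3424, 0), (0, 3425, 0), (0, 3424, 0), (3, 125508, 447671), (0, 3408, 0), (0, 3409, 0), (0, 3408, 0), (3, 92740, 447671), (0, 3416, 0), (0, 3417, 0), (0, 3416, 0), (1, 26837, 184), (0, 3408, 0), (0, 3409, 0), (0, 3408, 0)])]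

theorem DG_ok : chainB [23, 29, 54, 184] [] DG [] = true := by decide +kernel

theorem DG_0 : Negl [23, 29, 54, 184] [] 120663 := by
  obtain ⟨q, hq, e⟩ : ∃ q ∈ DG, q.1 = 120663 := by decide +kernel
  have h := chain_negl DG [] DG_ok (fun m hm => absurd hm List.not_mem_nil) q hq
  rw [e] at h
  exact negl_iso (p := 181896) (by decide +kernel) h

theorem DG_1 : Negl [23, 29, 54, 184] [] 228027 := by
  obtain ⟨q, hq, e⟩ : ∃ q ∈ DG, q.1 = 228027 := by decide +kernel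
  have h := chain_negl DG [] DG_ok (fun m hm => absurd hm List.not_mem_nil) q hq
  rw [e] at h
  exact negl_iso (p := 181896) (by decide +kernel) h

/-- chain for the class with five-vertex codes `[28, 29, 54, 184]` and edge numbers `[]` -/
def DF16 : List (ℕ × List (ℕ × ℕ × ℕ)) := [
  (120663, [(1, 15106, 184), (1, 15106, 184), (1, 15106, 184), (0, 3400, 0), (1, 15106, 184), (1, 15106, 184), (0, 3409, 0), (0, 3400, 0), (1, 15106, 184), (1, 15106, 184), (0, 3417, 0), (0, 3400, 0), (0, 3418, 0), (0, 3418, 0), (0, 3409, 0), (0, 3400, 0), (1, 15106, 184), (0, 3424, 0), (1, 15106, 184), (0, 3400, 0), (1, 15106, 184), (0, 3424, 0), (0, 3409, 0), (0, 3400, 0), (1, 15106, 184), (0, 3424, 0), (0, 3417, 0), (0, 3400, 0), (0, 3418, 0), (0, 3424, 0), (0, 3409, 0), (0, 3400, 0)]),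
  (97095, [(1, 27408, 54), (1, 27345, 54), (1, 6197, 28), (1, 6197, 29), (1, 27416, 54), (0, 3408, 0), (0, 3409, 0), (0, 3408, 0), (1, 27408, 54), (0, 3416, 0), (0, 3417, 0), (0, 3416, 0), (1, 19802, 28), (0, 3408, 0), (0, 3409, 0), (0, 3408, 0), (1, 27345, 54), (0, 3424, 0), (1, 4405, 29), (0, 3424, 0), (1, 15713, 184), (0, 3408, 0), (0, 3409, 0), (0, 3408, 0), (1, 11617, 184), (0, 3416, 0), (0, 3417, 0), (0, 3416, 0), (1, 26837, 184), (0, 3408, 0), (0, 3409, 0), (0, 3408, 0)]),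
  (1041409, [(1, 27267, 54), (1, 27275, 54), (1, 27267, 54), (0, 3400, 0), (1, 7504, 184), (3, 44384, 97095), (3, 11617, 97095), (0, 3400, 0), (1, 27268, 54), (0, 3416, 0), (0, 3417, 0), (0, 3400, 0), (0, 3418, 0), (0, 3416, 0), (0, 3417, 0), (0, 3400, 0), (1, 27267, 54), (0, 3424, 0), (0, 3425, 0), (0, 3400, 0), (0, 3426, 0), (0, 3424, 0), (0, 3425, 0), (0, 3400, 0), (0, 3427, 0), (0, 3416, 0), (0, 3417, 0), (0, 3400, 0), (0, 3418, 0), (0, 3416, 0), (0, 3417, 0), (0, 3400, 0)]),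
  (228027, [(1, 27344, 54), (1, 27409, 54), (1, 27344, 54), (3, 60186, 1041409), (1, 27417, 54), (0, 3408, 0), (0, 3409, 0), (0, 3408, 0), (1, 27409, 54), (0, 3416, 0), (0, 3417, 0), (0, 3416, 0), (1, 19802, 28), (0, 3408, 0), (0, 3409, 0), (0, 3408, 0), (1, 27344, 54), (0, 3424, 0), (0, 3425, 0), (0, 3424, 0), (1, 15714, 28), (0, 3408, 0), (0, 3409, 0), (0, 3408, 0), (1, 11619, 28), (0, 3416, 0), (0, 3417, 0), (0, 3416, 0), (1, 26837, 184), (0, 3408, 0), (0, 3409, 0), (0, 3408, 0)])]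

theorem DF16_ok : chainB [28, 29, 54, 184] [] DF16 [] = true := by decide +kernel

theorem DF16_0 : Negl [28, 29, 54, 184] [] 120663 := by
  obtain ⟨q, hq, e⟩ : ∃ q ∈ DF16, q.1 = 120663 := by decide +kernel
  have h := chain_negl DF16 [] DF16_ok (fun m hm => absurd hm List.not_mem_nil) q hq
  rw [e] at h
  exact negl_iso (p := 181896) (by decide +kernel) h

theorem DF16_1 : Negl [28, 29, 54, 184] [] 228027 := by
  obtain ⟨q, hq, e⟩ : ∃ q ∈ DF16, q.1 = 228027 := by decide +kernel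
  have h := chain_negl DF16 [] DF16_ok (fun m hm => absurd hm List.not_mem_nil) q hq
  rw [e] at h
  exact negl_iso (p := 181896) (by decide +kernel) h

/-- chain for the class with five-vertex codes `[]` and edge numbers `[6]` -/
def DE : List (ℕ × List (ℕ × ℕ × ℕ)) := [
  (118791, [(2, 219345, 6), (2, 219272, 6), (2, 219272, 6), (2, 219344, 6), (2, 219272, 6), (2, 219336, 6), (0, 3409, 0), (0, 3409, 0), (2, 219336, 6), (2, 219272, 6), (0, 3417, 0), (0, 3417, 0), (0, 3418, 0), (0, 3418, 0), (0, 3409, 0), (0, 3409, 0), (2, 219272, 6), (0, 3424, 0), (2, 219344, 6), (0, 3424, 0), (2, 219336, 6), (0, 3424, 0), (0, 3409, 0), (0, 3424, 0), (2, 219272, 6), (0, 3424, 0), (0, 3417, 0), (0, 3424, 0), (0, 3418, 0), (0, 3424, 0), (0, 3409, 0), (0, 3424, 0)]),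
  (13110, [(2, 218760, 6), (2, 219336, 6), (2, 219336, 6), (2, 219272, 6), (2, 219344, 6), (2, 219272, 6), (0, 3409, 0), (0, 3409, 0), (2, 219336, 6), (0, 3416, 0), (2, 219344, 6), (0, 3416, 0), (2, 219336, 6), (0, 3416, 0), (0, 3409, 0), (0, 3416, 0), (2, 218760, 6), (2, 219272, 6), (2, 219272, 6), (2, 219345, 6), (2, 219272, 6), (2, 219345, 6), (0, 3409, 0), (0, 3409, 0), (2, 219345, 6), (0, 3416, 0), (2, 219272, 6), (0, 3416, 0), (2, 219272, 6), (0, 3416, 0), (0, 3409, 0), (0, 3416, 0)]),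
  (61489, [(2, 219345, 6), (2, 219272, 6), (2, 219272, 6), (2, 219344, 6), (2, 219272, 6), (2, 219336, 6), (0, 3409, 0), (0, 3409, 0), (2, 219336, 6), (0, 3416, 0), (0, 3417, 0), (0, 3416, 0), (0, 3418, 0), (0, 3416, 0), (0, 3409, 0), (0, 3416, 0), (2, 219272, 6), (3, 214669, 118791), (2, 219344, 6), (3, 146501, 13110), (2, 219336, 6), (3, 146565, 13110), (0, 3409, 0), (0, 3409, 0), (2, 219272, 6), (0, 3416, 0), (0, 3417, 0), (0, 3416, 0), (0, 3418, 0), (0, 3416, 0), (0, 3409, 0), (0, 3416, 0)]),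
  (118800, [(2, 218760, 6), (2, 219272, 6), (2, 219272, 6), (3, 14761, 61489), (2, 219272, 6), (2, 219336, 6), (0, 3409, 0), (0, 3409, 0), (2, 219336, 6), (2, 219272, 6), (0, 3417, 0), (0, 3417, 0), (0, 3418, 0), (0, 3418, 0), (0, 3409, 0), (0, 3409, 0), (2, 218760, 6), (0, 3424, 0), (3, 143785, 61489), (0, 3424, 0), (2, 219336, 6), (0, 3424, 0), (0, 3409, 0), (0, 3424, 0), (2, 219272, 6), (0, 3424, 0), (0, 3417, 0), (0, 3424, 0), (0, 3418, 0), (0, 3424, 0), (0, 3409, 0), (0, 3424, 0)]),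
  (229399, [(2, 219272, 6), (2, 218760, 6), (2, 218760, 6), (2, 219344, 6), (2, 218760, 6), (3, 83880, 61489), (2, 219344, 6), (2, 219345, 6), (2, 218760, 6), (3, 116136, 61489), (2, 219344, 6), (2, 219345, 6), (0, 3418, 0), (0, 3418, 0), (0, 3418, 0), (0, 3418, 0), (2, 219344, 6), (0, 3424, 0), (0, 3425, 0), (0, 3424, 0), (2, 218760, 6), (0, 3424, 0), (0, 3425, 0), (0, 3424, 0), (2, 218760, 6), (0, 3424, 0), (0, 3425, 0), (0, 3424, 0), (0, 3418, 0), (0, 3424, 0), (0, 3425, 0), (0, 3424, 0)]),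
  (229405, [(2, 219272, 6), (2, 218760, 6), (2, 218760, 6), (2, 219344, 6), (2, 218760, 6), (2, 219336, 6), (2, 219336, 6), (3, 83881, 61489), (2, 218760, 6), (2, 219345, 6), (2, 219344, 6), (3, 116137, 61489), (0, 3418, 0), (0, 3418, 0), (0, 3418, 0), (0, 3418, 0), (2, 219336, 6), (0, 3424, 0), (0, 3425, 0), (0, 3424, 0), (2, 218760, 6), (0, 3424, 0), (0, 3425, 0), (0, 3424, 0), (2, 218760, 6), (0, 3424, 0), (0, 3425, 0), (0, 3424, 0), (0, 3418, 0), (0, 3424, 0), (0, 3425, 0), (0, 3424, 0)]),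
  (86019, [(2, 218760, 6), (2, 219272, 6), (2, 219272, 6), (3, 51112, 61489), (2, 219272, 6), (2, 219336, 6), (0, 3409, 0), (0, 3409, 0), (2, 219336, 6), (2, 219272, 6), (0, 3417, 0), (0, 3417, 0), (2, 219272, 6), (2, 219345, 6), (0, 3409, 0), (0, 3409, 0), (2, 218760, 6), (0, 3424, 0), (2, 219345, 6), (0, 3424, 0), (2, 219336, 6), (0, 3424, 0), (0, 3409, 0), (0, 3424, 0), (2, 219272, 6), (0, 3424, 0), (0, 3417, 0), (0, 3424, 0), (3, 17141, 229405), (0, 3424, 0), (0, 3409, 0), (0, 3424, 0)]),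
  (286750, [(2, 219336, 6), (2, 219344, 6), (2, 219345, 6), (2, 219344, 6), (2, 219336, 6), (2, 219345, 6), (2, 219344, 6), (2, 219272, 6), (2, 219344, 6), (0, 3416, 0), (0, 3417, 0), (0, 3416, 0), (3, 115626, 61489), (0, 3416, 0), (0, 3417, 0), (0, 3416, 0), (2, 219344, 6), (2, 219345, 6), (2, 219344, 6), (2, 219272, 6), (0, 3426, 0), (0, 3426, 0), (0, 3426, 0), (0, 3426, 0), (3, 82677, 229405), (0, 3416, 0), (0, 3417, 0), (0, 3416, 0), (0, 3426, 0), (0, 3416, 0), (0, 3417, 0), (0, 3416, 0)]),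
  (288798, [(2, 219336, 6), (2, 219272, 6), (2, 219272, 6), (2, 219345, 6), (2, 219272, 6), (0, 3408, 0), (3, 51114, 61489), (0, 3408, 0), (2, 219345, 6), (0, 3416, 0), (0, 3417, 0), (0, 3416, 0), (2, 219272, 6), (0, 3408, 0), (0, 3417, 0), (0, 3408, 0), (2, 219272, 6), (2, 219345, 6), (3, 83573, 229405), (3, 83573, 229405), (0, 3426, 0), (0, 3408, 0), (0, 3426, 0), (0, 3408, 0), (2, 219272, 6), (0, 3416, 0), (0, 3417, 0), (0, 3416, 0), (0, 3426, 0), (0, 3408, 0), (0, 3417, 0), (0, 3408, 0)]),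
  (13174, [(2, 218760, 6), (2, 219272, 6), (2, 219272, 6), (2, 219344, 6), (2, 219272, 6), (2, 219336, 6), (0, 3409, 0), (0, 3409, 0), (2, 219336, 6), (0, 3416, 0), (2, 219272, 6), (0, 3416, 0), (2, 219272, 6), (0, 3416, 0), (0, 3409, 0), (0, 3416, 0), (2, 218760, 6), (2, 219345, 6), (2, 219344, 6), (3, 142680, 229399), (2, 219336, 6), (3, 138584, 229399), (0, 3409, 0), (0, 3409, 0), (2, 219272, 6), (0, 3416, 0), (3, 142659, 229399), (0, 3416, 0), (3, 138563, 229399), (0, 3416, 0), (0, 3409, 0), (0, 3416, 0)]),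
  (30749, [(2, 219272, 6), (2, 219336, 6), (2, 219336, 6), (2, 219344, 6), (2, 219344, 6), (0, 3408, 0), (0, 3409, 0), (0, 3408, 0), (2, 219272, 6), (0, 3416, 0), (0, 3417, 0), (0, 3416, 0), (2, 219336, 6), (0, 3408, 0), (0, 3409, 0), (0, 3408, 0), (2, 219336, 6), (2, 219345, 6), (2, 219344, 6), (3, 146501, 13110), (2, 219336, 6), (0, 3408, 0), (0, 3409, 0), (0, 3408, 0), (3, 50741, 286750), (0, 3416, 0), (0, 3417, 0), (0, 3416, 0), (3, 50741, 286750), (0, 3408, 0), (0, 3409, 0), (0, 3408, 0)]),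
  (68616, [(2, 219272, 6), (2, 218760, 6), (2, 218760, 6), (0, 3400, 0), (2, 218760, 6), (0, 3408, 0), (3, 81217, 118791), (0, 3400, 0), (2, 218760, 6), (2, 219336, 6), (2, 219336, 6), (0, 3400, 0), (2, 219344, 6), (0, 3408, 0), (2, 219336, 6), (0, 3400, 0), (3, 81217, 86019), (0, 3424, 0), (2, 218760, 6), (0, 3400, 0), (2, 218760, 6), (0, 3408, 0), (2, 219336, 6), (0, 3400, 0), (2, 218760, 6), (0, 3424, 0), (2, 219344, 6), (0, 3400, 0), (2, 219336, 6), (0, 3408, 0), (3, 101517, 13110), (0, 3400, 0)]),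
  (38930, [(3, 52560, 86019), (2, 219272, 6), (2, 219272, 6), (3, 52560, 118791), (2, 219272, 6), (0, 3408, 0), (0, 3409, 0), (0, 3408, 0), (3, 52560, 86019), (2, 219272, 6), (2, 219272, 6), (2, 219344, 6), (0, 3418, 0), (0, 3408, 0), (0, 3409, 0), (0, 3408, 0), (2, 219272, 6), (2, 219344, 6), (2, 219345, 6), (2, 219344, 6), (2, 219344, 6), (0, 3408, 0), (0, 3409, 0), (0, 3408, 0), (2, 219272, 6), (2, 219345, 6), (2, 219344, 6), (2, 219336, 6), (0, 3418, 0), (0, 3408, 0), (0, 3409, 0), (0, 3408, 0)]),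
  (63505, [(2, 219272, 6), (2, 219336, 6), (2, 219336, 6), (3, 52568, 118791), (3, 52568, 86019), (0, 3408, 0), (0, 3409, 0), (0, 3408, 0), (2, 219272, 6), (0, 3416, 0), (0, 3417, 0), (0, 3416, 0), (0, 3418, 0), (0, 3408, 0), (0, 3409, 0), (0, 3408, 0), (2, 219336, 6), (3, 214669, 118791), (3, 115829, 30749), (3, 115829, 30749), (2, 219336, 6), (0, 3408, 0), (0, 3409, 0), (0, 3408, 0), (3, 82677, 30749), (0, 3416, 0), (0, 3417, 0), (0, 3416, 0), (0, 3418, 0), (0, 3408, 0), (0, 3409, 0), (0, 3408, 0)]),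
  (114759, [(3, 85337, 86019), (2, 219336, 6), (2, 219336, 6), (2, 219272, 6), (2, 219344, 6), (2, 219272, 6), (2, 219272, 6), (3, 85337, 118791), (2, 219336, 6), (2, 219345, 6), (0, 3417, 0), (0, 3417, 0), (0, 3418, 0), (0, 3418, 0), (0, 3417, 0), (0, 3417, 0), (2, 219336, 6), (0, 3424, 0), (2, 219272, 6), (0, 3424, 0), (2, 219272, 6), (0, 3424, 0), (3, 146573, 13110), (0, 3424, 0), (3, 83573, 286750), (0, 3424, 0), (0, 3417, 0), (0, 3424, 0), (0, 3418, 0), (0, 3424, 0), (0, 3417, 0), (0, 3424, 0)]),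
  (15374, [(2, 219272, 6), (2, 219336, 6), (2, 219336, 6), (0, 3400, 0), (2, 219344, 6), (0, 3408, 0), (0, 3409, 0), (0, 3400, 0), (2, 219272, 6), (0, 3416, 0), (2, 219344, 6), (0, 3400, 0), (2, 219336, 6), (0, 3408, 0), (0, 3409, 0), (0, 3400, 0), (2, 219336, 6), (3, 80297, 68616), (2, 219344, 6), (0, 3400, 0), (2, 219336, 6), (0, 3408, 0), (0, 3409, 0), (0, 3400, 0), (3, 83573, 38930), (0, 3416, 0), (2, 219345, 6), (0, 3400, 0), (2, 219345, 6), (0, 3408, 0), (0, 3409, 0), (0, 3400, 0)]),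
  (122998, [(3, 85337, 86019), (2, 219272, 6), (2, 219272, 6), (2, 219345, 6), (2, 219272, 6), (2, 219345, 6), (3, 85337, 118791), (3, 85337, 118791), (2, 219345, 6), (0, 3416, 0), (0, 3417, 0), (0, 3416, 0), (0, 3418, 0), (0, 3416, 0), (0, 3417, 0), (0, 3416, 0), (2, 219272, 6), (0, 3424, 0), (3, 83881, 114759), (0, 3424, 0), (3, 51114, 114759), (0, 3424, 0), (3, 146573, 13110), (0, 3424, 0), (2, 219272, 6), (0, 3416, 0), (0, 3417, 0), (0, 3416, 0), (0, 3418, 0), (0, 3416, 0), (0, 3417, 0), (0, 3416, 0)]),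
  (86196, [(2, 219272, 6), (2, 218760, 6), (2, 218760, 6), (2, 219344, 6), (2, 218760, 6), (3, 99242, 114759), (0, 3409, 0), (0, 3409, 0), (2, 218760, 6), (3, 66475, 114759), (0, 3417, 0), (0, 3417, 0), (2, 219345, 6), (2, 219345, 6), (0, 3409, 0), (0, 3409, 0), (2, 219344, 6), (0, 3424, 0), (2, 218760, 6), (0, 3424, 0), (2, 218760, 6), (0, 3424, 0), (0, 3409, 0), (0, 3424, 0), (2, 218760, 6), (0, 3424, 0), (0, 3417, 0), (0, 3424, 0), (3, 101706, 118791), (0, 3424, 0), (0, 3409, 0), (0, 3424, 0)]),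
  (118960, [(2, 218760, 6), (2, 219345, 6), (2, 219344, 6), (3, 215761, 15374), (2, 219336, 6), (3, 215754, 15374), (0, 3409, 0), (0, 3409, 0), (2, 219272, 6), (3, 215691, 15374), (0, 3417, 0), (0, 3417, 0), (0, 3418, 0), (0, 3418, 0), (0, 3409, 0), (0, 3409, 0), (2, 218760, 6), (0, 3424, 0), (3, 115829, 30749), (0, 3424, 0), (3, 115381, 30749), (0, 3424, 0), (0, 3409, 0), (0, 3424, 0), (3, 82677, 30749), (0, 3424, 0), (0, 3417, 0), (0, 3424, 0), (0, 3418, 0), (0, 3424, 0), (0, 3409, 0), (0, 3424, 0)]),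
  (86204, [(2, 218760, 6), (2, 219344, 6), (2, 219345, 6), (2, 219344, 6), (2, 219336, 6), (2, 219345, 6), (0, 3409, 0), (0, 3409, 0), (2, 219272, 6), (2, 219345, 6), (0, 3417, 0), (0, 3417, 0), (3, 116137, 15374), (3, 116137, 15374), (0, 3409, 0), (0, 3409, 0), (2, 218760, 6), (0, 3424, 0), (2, 219344, 6), (0, 3424, 0), (3, 50869, 63505), (0, 3424, 0), (0, 3409, 0), (0, 3424, 0), (3, 50421, 63505), (0, 3424, 0), (0, 3417, 0), (0, 3424, 0), (3, 199258, 30749), (0, 3424, 0), (0, 3409, 0), (0, 3424, 0)]),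
  (79451, [(3, 142659, 86019), (2, 219344, 6), (2, 219345, 6), (0, 3400, 0), (2, 219344, 6), (2, 219345, 6), (0, 3409, 0), (0, 3400, 0), (2, 219344, 6), (0, 3416, 0), (2, 219344, 6), (0, 3400, 0), (3, 139691, 114759), (0, 3416, 0), (0, 3409, 0), (0, 3400, 0), (2, 219344, 6), (0, 3424, 0), (2, 219344, 6), (0, 3400, 0), (3, 106924, 114759), (0, 3424, 0), (0, 3409, 0), (0, 3400, 0), (3, 202986, 86196), (0, 3416, 0), (3, 142659, 118791), (0, 3400, 0), (3, 68893, 13110), (0, 3416, 0), (0, 3409, 0), (0, 3400, 0)]),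
  (31744, [(2, 219272, 6), (3, 215752, 15374), (3, 215745, 15374), (0, 3400, 0), (2, 219336, 6), (0, 3408, 0), (0, 3409, 0), (0, 3400, 0), (2, 219272, 6), (0, 3416, 0), (0, 3417, 0), (0, 3400, 0), (2, 219344, 6), (0, 3408, 0), (0, 3409, 0), (0, 3400, 0), (3, 214669, 86019), (2, 219344, 6), (2, 219345, 6), (0, 3400, 0), (2, 219344, 6), (0, 3408, 0), (0, 3409, 0), (0, 3400, 0), (2, 219344, 6), (0, 3416, 0), (0, 3417, 0), (0, 3400, 0), (3, 49397, 30749), (0, 3408, 0), (0, 3409, 0), (0, 3400, 0)]),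
  (7174, [(2, 219272, 6), (3, 215688, 15374), (3, 215681, 15374), (0, 3400, 0), (3, 215618, 15374), (0, 3408, 0), (0, 3409, 0), (0, 3400, 0), (2, 219272, 6), (3, 215688, 15374), (3, 215681, 15374), (0, 3400, 0), (3, 215618, 15374), (0, 3408, 0), (0, 3409, 0), (0, 3400, 0), (3, 80296, 68616), (3, 82485, 30749), (3, 80296, 68616), (0, 3400, 0), (3, 47528, 68616), (0, 3408, 0), (0, 3409, 0), (0, 3400, 0), (3, 83509, 38930), (2, 219336, 6), (2, 219336, 6), (0, 3400, 0), (2, 219344, 6), (0, 3408, 0), (0, 3409, 0), (0, 3400, 0)]),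
  (12294, [(2, 218760, 6), (3, 81224, 86196), (3, 48464, 118960), (3, 81224, 86204), (3, 81224, 118960), (3, 48464, 86204), (0, 3409, 0), (0, 3409, 0), (3, 68939, 86196), (0, 3416, 0), (3, 68939, 86204), (0, 3416, 0), (3, 36179, 86204), (0, 3416, 0), (0, 3409, 0), (0, 3416, 0), (2, 218760, 6), (3, 81224, 86196), (3, 108968, 68616), (2, 219336, 6), (3, 115765, 38930), (2, 219344, 6), (0, 3409, 0), (0, 3409, 0), (3, 68939, 86196), (0, 3416, 0), (2, 219336, 6), (0, 3416, 0), (2, 219344, 6), (0, 3416, 0), (0, 3409, 0), (0, 3416, 0)]),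
  (58369, [(2, 219336, 6), (3, 17835, 7174), (3, 50603, 7174), (0, 3400, 0), (2, 219336, 6), (2, 219344, 6), (2, 219345, 6), (0, 3400, 0), (3, 115829, 31744), (0, 3416, 0), (0, 3417, 0), (0, 3400, 0), (0, 3418, 0), (0, 3416, 0), (0, 3417, 0), (0, 3400, 0), (3, 214109, 86019), (2, 219344, 6), (2, 219345, 6), (0, 3400, 0), (2, 219344, 6), (2, 219272, 6), (2, 219272, 6), (0, 3400, 0), (2, 219344, 6), (0, 3416, 0), (0, 3417, 0), (0, 3400, 0), (0, 3418, 0), (0, 3416, 0), (0, 3417, 0), (0, 3400, 0)]),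
  (130048, [(2, 219345, 6), (2, 219345, 6), (3, 215761, 15374), (0, 3400, 0), (3, 215754, 15374), (0, 3408, 0), (0, 3409, 0), (0, 3400, 0), (3, 215691, 15374), (0, 3416, 0), (0, 3417, 0), (0, 3400, 0), (0, 3418, 0), (0, 3408, 0), (0, 3409, 0), (0, 3400, 0), (3, 214669, 118791), (0, 3424, 0), (3, 115829, 30749), (0, 3400, 0), (3, 115381, 30749), (0, 3408, 0), (0, 3409, 0), (0, 3400, 0), (3, 82677, 30749), (0, 3416, 0), (0, 3417, 0), (0, 3400, 0), (0, 3418, 0), (0, 3408, 0), (0, 3409, 0), (0, 3400, 0)]),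
  (64528, [(2, 219344, 6), (2, 219345, 6), (2, 219344, 6), (0, 3400, 0), (3, 215754, 15374), (0, 3408, 0), (0, 3409, 0), (0, 3400, 0), (3, 215691, 15374), (0, 3416, 0), (0, 3417, 0), (0, 3400, 0), (0, 3418, 0), (0, 3408, 0), (0, 3409, 0), (0, 3400, 0), (3, 214669, 118791), (3, 214669, 118791), (3, 115829, 30749), (0, 3400, 0), (3, 115381, 30749), (0, 3408, 0), (0, 3409, 0), (0, 3400, 0), (3, 82677, 30749), (0, 3416, 0), (0, 3417, 0), (0, 3400, 0), (0, 3418, 0), (0, 3408, 0), (0, 3409, 0), (0, 3400, 0)]),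
  (77878, [(2, 218760, 6), (3, 85320, 86196), (2, 219344, 6), (3, 85320, 86204), (2, 219336, 6), (3, 52560, 86204), (0, 3409, 0), (0, 3409, 0), (2, 219272, 6), (0, 3416, 0), (3, 52560, 118960), (0, 3416, 0), (3, 85320, 118960), (0, 3416, 0), (0, 3409, 0), (0, 3416, 0), (2, 218760, 6), (0, 3424, 0), (3, 68940, 86204), (0, 3424, 0), (3, 36180, 86204), (0, 3424, 0), (0, 3409, 0), (0, 3424, 0), (3, 68940, 86196), (0, 3416, 0), (3, 68940, 86204), (0, 3416, 0), (3, 36180, 86204), (0, 3416, 0), (0, 3409, 0), (0, 3416, 0)]),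
  (1016835, [(2, 218760, 6), (3, 105808, 86196), (3, 101713, 86196), (0, 3400, 0), (3, 73048, 118960), (3, 105808, 86204), (3, 101713, 86204), (0, 3400, 0), (3, 105808, 118960), (3, 73048, 86204), (3, 68953, 86204), (0, 3400, 0), (0, 3418, 0), (0, 3418, 0), (0, 3418, 0), (0, 3400, 0), (2, 218760, 6), (0, 3424, 0), (0, 3425, 0), (0, 3400, 0), (0, 3426, 0), (0, 3424, 0), (0, 3425, 0), (0, 3400, 0), (0, 3427, 0), (0, 3424, 0), (0, 3425, 0), (0, 3400, 0), (0, 3418, 0), (0, 3424, 0), (0, 3425, 0), (0, 3400, 0)]),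
  (118967, [(2, 219345, 6), (2, 219345, 6), (3, 215761, 15374), (3, 215761, 15374), (3, 215754, 15374), (3, 215754, 15374), (0, 3409, 0), (0, 3409, 0), (3, 215691, 15374), (3, 215691, 15374), (0, 3417, 0), (0, 3417, 0), (0, 3418, 0), (0, 3418, 0), (0, 3409, 0), (0, 3409, 0), (3, 214669, 118791), (0, 3424, 0), (3, 115829, 30749), (0, 3424, 0), (3, 115381, 30749), (0, 3424, 0), (0, 3409, 0), (0, 3424, 0), (3, 82677, 30749), (0, 3424, 0), (0, 3417, 0), (0, 3424, 0), (0, 3418, 0), (0, 3424, 0), (0, 3409, 0), (0, 3424, 0)]),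
  (119991, [(2, 219345, 6), (2, 219345, 6), (3, 215761, 15374), (0, 3400, 0), (3, 215754, 15374), (3, 215754, 15374), (0, 3409, 0), (0, 3400, 0), (3, 215691, 15374), (3, 215691, 15374), (0, 3417, 0), (0, 3400, 0), (0, 3418, 0), (0, 3418, 0), (0, 3409, 0), (0, 3400, 0), (3, 214669, 118791), (0, 3424, 0), (3, 115829, 30749), (0, 3400, 0), (3, 115381, 30749), (0, 3424, 0), (0, 3409, 0), (0, 3400, 0), (3, 82677, 30749), (0, 3424, 0), (0, 3417, 0), (0, 3400, 0), (0, 3418, 0), (0, 3424, 0), (0, 3409, 0), (0, 3400, 0)]),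
  (120663, [(2, 219344, 6), (3, 15714, 118960), (2, 219344, 6), (0, 3400, 0), (3, 146754, 86196), (3, 146754, 86204), (0, 3409, 0), (0, 3400, 0), (3, 142659, 86196), (3, 142659, 86204), (0, 3417, 0), (0, 3400, 0), (0, 3418, 0), (0, 3418, 0), (0, 3409, 0), (0, 3400, 0), (3, 146754, 118960), (0, 3424, 0), (3, 146754, 118960), (0, 3400, 0), (3, 15714, 86204), (0, 3424, 0), (0, 3409, 0), (0, 3400, 0), (3, 11619, 86204), (0, 3424, 0), (0, 3417, 0), (0, 3400, 0), (0, 3418, 0), (0, 3424, 0), (0, 3409, 0), (0, 3400, 0)]),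
  (78317, [(2, 219336, 6), (3, 7523, 64528), (2, 219345, 6), (2, 219345, 6), (2, 219336, 6), (2, 219345, 6), (0, 3409, 0), (0, 3409, 0), (2, 219345, 6), (0, 3416, 0), (3, 201059, 288798), (0, 3416, 0), (3, 73056, 1016835), (0, 3416, 0), (0, 3409, 0), (0, 3416, 0), (2, 219345, 6), (0, 3424, 0), (3, 201052, 288798), (0, 3424, 0), (3, 73048, 1016835), (0, 3424, 0), (0, 3409, 0), (0, 3424, 0), (3, 207081, 86196), (0, 3416, 0), (3, 43253, 1016835), (0, 3416, 0), (3, 203299, 30749), (0, 3416, 0), (0, 3409, 0), (0, 3416, 0)]),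
  (79561, [(2, 219344, 6), (3, 11619, 64528), (2, 219344, 6), (0, 3400, 0), (2, 219345, 6), (2, 219345, 6), (0, 3409, 0), (0, 3400, 0), (2, 219345, 6), (0, 3416, 0), (3, 109889, 118967), (0, 3400, 0), (3, 205155, 288798), (0, 3416, 0), (0, 3409, 0), (0, 3400, 0), (2, 219345, 6), (0, 3424, 0), (3, 142657, 118967), (0, 3400, 0), (3, 205148, 288798), (0, 3424, 0), (0, 3409, 0), (0, 3400, 0), (3, 202986, 86196), (0, 3416, 0), (3, 207395, 30749), (0, 3400, 0), (3, 71925, 1016835), (0, 3416, 0), (0, 3409, 0), (0, 3400, 0)]),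
  (79579, [(2, 219344, 6), (3, 11619, 64528), (2, 219344, 6), (0, 3400, 0), (2, 219345, 6), (2, 219345, 6), (0, 3409, 0), (0, 3400, 0), (2, 219345, 6), (0, 3416, 0), (3, 109889, 119991), (0, 3400, 0), (3, 205155, 288798), (0, 3416, 0), (0, 3409, 0), (0, 3400, 0), (2, 219345, 6), (0, 3424, 0), (3, 142657, 119991), (0, 3400, 0), (3, 205148, 288798), (0, 3424, 0), (0, 3409, 0), (0, 3400, 0), (3, 202986, 86196), (0, 3416, 0), (3, 207395, 30749), (0, 3400, 0), (3, 71925, 1016835), (0, 3416, 0), (0, 3409, 0), (0, 3400, 0)]),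
  (149559, [(2, 219336, 6), (3, 214849, 77878), (3, 43253, 31744), (3, 43253, 31744), (2, 219336, 6), (0, 3408, 0), (2, 219345, 6), (0, 3408, 0), (3, 108969, 7174), (2, 219344, 6), (0, 3417, 0), (0, 3417, 0), (2, 219344, 6), (0, 3408, 0), (0, 3417, 0), (0, 3408, 0), (3, 141225, 7174), (2, 219344, 6), (0, 3425, 0), (0, 3425, 0), (2, 219344, 6), (0, 3408, 0), (0, 3425, 0), (0, 3408, 0), (2, 219344, 6), (2, 219345, 6), (0, 3417, 0), (0, 3417, 0), (3, 60036, 79561), (0, 3408, 0), (0, 3417, 0), (0, 3408, 0)]),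
  (79034, [(2, 219344, 6), (3, 11612, 130048), (2, 219344, 6), (0, 3400, 0), (3, 106921, 122998), (3, 85320, 118967), (0, 3409, 0), (0, 3400, 0), (3, 214361, 12294), (0, 3416, 0), (3, 50421, 58369), (0, 3400, 0), (3, 82677, 58369), (0, 3416, 0), (0, 3409, 0), (0, 3400, 0), (3, 80297, 68616), (0, 3424, 0), (3, 92705, 78317), (0, 3400, 0), (3, 106921, 122998), (0, 3424, 0), (0, 3409, 0), (0, 3400, 0), (3, 83573, 38930), (0, 3416, 0), (2, 219345, 6), (0, 3400, 0), (2, 219345, 6), (0, 3416, 0), (0, 3409, 0), (0, 3400, 0)]),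
  (243175, [(3, 125713, 149559), (3, 125713, 149559), (3, 215761, 79034), (0, 3400, 0), (3, 219146, 120663), (3, 85336, 119991), (0, 3409, 0), (0, 3400, 0), (3, 219203, 120663), (0, 3416, 0), (3, 118097, 118967), (0, 3400, 0), (0, 3418, 0), (0, 3416, 0), (0, 3409, 0), (0, 3400, 0), (3, 92931, 79451), (0, 3424, 0), (0, 3425, 0), (0, 3400, 0), (3, 125538, 78317), (0, 3424, 0), (0, 3409, 0), (0, 3400, 0), (3, 92931, 79579), (0, 3416, 0), (0, 3425, 0), (0, 3400, 0), (0, 3418, 0), (0, 3416, 0), (0, 3409, 0), (0, 3400, 0)])]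

theorem DE_ok : chainB [] [6] DE [] = true := by decide +kernel

theorem DE_0 : Negl [] [6] 120663 := by
  obtain ⟨q, hq, e⟩ : ∃ q ∈ DE, q.1 = 120663 := by decide +kernel
  have h := chain_negl DE [] DE_ok (fun m hm => absurd hm List.not_mem_nil) q hq
  rw [e] at h
  exact negl_iso (p := 181896) (by decide +kernel) h

theorem DE_1 : Negl [] [6] 228027 := by
  obtain ⟨q, hq, e⟩ : ∃ q ∈ DE, q.1 = 243175 := by decide +kernel
  have h := chain_negl DE [] DE_ok (fun m hm => absurd hm List.not_mem_nil) q hq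
  rw [e] at h
  exact negl_iso (p := 120968) (by decide +kernel) h

/-- codes of the lists of five-vertex 3-graphs -/
def fiveM : Fin 17 → List ℕ := ![[3, 7], [3, 23], [3, 28], [3, 54], [3, 62], [3, 185], [7, 54], [1, 7, 184], [1, 54, 184], [1, 62, 184], [54, 62, 184], [1, 20, 23, 184], [1, 20, 28, 184], [20, 23, 54, 184], [20, 28, 54, 184], [23, 28, 54, 184], [28, 29, 54, 184]]

theorem five_negl (j : Fin 17) : Negl (fiveM j) [] 120663 ∧ Negl (fiveM j) [] 228027 := by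
  fin_cases j
  exacts [⟨DF0_0, DF0_1⟩, ⟨DF1_0, DF1_1⟩, ⟨DF2_0, DF2_1⟩, ⟨DF3_0, DF3_1⟩, ⟨DF4_0, DF4_1⟩, ⟨DF5_0, DF5_1⟩, ⟨DF6_0, DF6_1⟩, ⟨DF7_0, DF7_1⟩, ⟨DF8_0, DF8_1⟩, ⟨DF9_0, DF9_1⟩, ⟨DF10_0, DF10_1⟩, ⟨DF11_0, DF11_1⟩, ⟨DF12_0, DF12_1⟩, ⟨DF13_0, DF13_1⟩, ⟨DF14_0, DF14_1⟩, ⟨DF15_0, DF15_1⟩, ⟨DF16_0, DF16_1⟩]

theorem six_negl : Negl [] [6] 120663 ∧ Negl [] [6] 228027 := ⟨DE_0, DE_1⟩

theorem four_negl : Negl [23, 29, 54, 184] [] 120663 ∧ Negl [23, 29, 54, 184] [] 228027 := ⟨DG_0, DG_1⟩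

end Pool.Agent.TH773.CL
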