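import Pool.Agent.H37R3.Cop

/-! Six-vertex patterns whose density tends to zero in a class of 3-graphs: a pattern is cloned in
one vertex, and every completion contains a forbidden structure or an earlier pattern. -/

set_option autoImplicit false
set_option maxRecDepth 100000
set_option maxHeartbeats 4000000
open Finset
open scoped Classical

namespace Pool.Agent.TH773.CL
open Pool.Agent.H122R2.N6 Pool.Agent.H37R3.Pen Pool.Agent.H37R3.Cop

theorem card_pullC {V : Type} [Fintype V] {k m : ℕ} (e : Fin m → Fin k)
    (he : Function.Injective e)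
    (s : Finset (Fin k → V)) (t : Finset (Fin m → V)) (h : ∀ w ∈ s, w ∘ e ∈ t) :
    s.card ≤ t.card * Fintype.card V ^ (k - m) := by
  have h1 : s.card ≤ (t ×ˢ (univ : Finset ({j : Fin k // j ∉ Set.range e} → V))).card := by
    refine card_le_card_of_injOn (fun w => (w ∘ e, fun j => w j.1)) ?_ ?_
    · intro w hw
      exact mem_coe.mpr (mem_product.mpr ⟨h w hw, mem_univ _⟩)
    · intro w _ w' _ h
      have ha := (Prod.mk.inj h).1
      have hb := (Prod.mk.inj h).2
      funext j
      by_cases hj : j ∈ Set.range e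
      · obtain ⟨i, rfl⟩ := hj
        exact congrFun ha i
      · exact congrFun hb ⟨j, hj⟩
  refine h1.trans (le_of_eq ?_)
  rw [card_product, card_univ (α := {j : Fin k // j ∉ Set.range e} → V), Fintype.card_fun]
  have h2 : Fintype.card {j : Fin k // j ∉ Set.range e} = k - m := by
    rw [Fintype.card_subtype_compl, Fintype.card_fin]
    have h3 : Fintype.card {j : Fin k // j ∈ Set.range e} = m :=
      (Fintype.card_congr (Equiv.ofInjective e he)).symm.trans (Fintype.card_fin m)
    rw [h3]
  rw [h2]

/-- index of the triple `a < b < c` -/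
def tx (a b c : ℕ) : ℕ := c * (c - 1) * (c - 2) / 6 + b * (b - 1) / 2 + a

/-- the value of a triple `a < b < d` of seven vertices: vertices `0, ..., 5` have pattern `m`,
vertex `6` is a clone of vertex `5`, and `c` codes the triples with `5` and `6` -/
def w7 (m c : ℕ) (t : ℕ × ℕ × ℕ) : ℕ :=
  if Nat.ble t.2.2 5 then bt m (tx t.1 t.2.1 t.2.2)
  else if Nat.ble t.2.1 4 then bt m (tx t.1 t.2.1 5) else bt c t.1

/-- three elements in order -/
def s7 (i j k : Fin 7) : ℕ × ℕ × ℕ :=
  (min i.val (min j.val k.val),
    i.val + j.val + k.val - min i.val (min j.val k.val) - max i.val (max j.val k.val),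
    max i.val (max j.val k.val))

def v7 (m c : ℕ) (i j k : Fin 7) : ℕ := w7 m c (s7 i j k)

theorem s7_213 : ∀ i j k : Fin 7, s7 j i k = s7 i j k := by decide
theorem s7_132 : ∀ i j k : Fin 7, s7 i k j = s7 i j k := by decide

theorem v7_213 (m c : ℕ) (i j k : Fin 7) : v7 m c j i k = v7 m c i j k := by
  unfold v7; rw [s7_213]
theorem v7_132 (m c : ℕ) (i j k : Fin 7) : v7 m c i k j = v7 m c i j k := by
  unfold v7; rw [s7_132]

section
variable {V : Type} {E : V → V → V → ℕ}

/-- the seven-tuple `y` is the pattern `m` with vertex `5` cloned, with completion `c` -/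
def Cp7 (E : V → V → V → ℕ) (m c : ℕ) (y : Fin 7 → V) : Prop :=
  ∀ i j k : Fin 7, i < j → j < k → E (y i) (y j) (y k) = v7 m c i j k

theorem Cp7.full (hE : Sy E) {m c : ℕ} {y : Fin 7 → V} (h : Cp7 E m c y)
    (i j k : Fin 7) (hij : i ≠ j) (hik : i ≠ k) (hjk : j ≠ k) :
    E (y i) (y j) (y k) = v7 m c i j k := by
  rcases lt_or_gt_of_ne hij with h1 | h1 <;> rcases lt_or_gt_of_ne hik with h2 | h2 <;>
    rcases lt_or_gt_of_ne hjk with h3 | h3
  · exact h i j k h1 h3
  · rw [← hE.h132, h i k j h2 h3, v7_132]
  · exact absurd (h1.trans h3) (not_lt.mpr h2.le)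
  · rw [← hE.h312, h k i j h2 h1, v7_213, v7_132]
  · rw [← hE.h213, h j i k h1 h2, v7_213]
  · exact absurd (h1.trans h2) (not_lt.mpr h3.le)
  · rw [← hE.h231, h j k i h3 h2, v7_132, v7_213]
  · rw [hE.h213 (y j) (y i) (y k), hE.h132 (y j) (y k) (y i), hE.h213 (y k) (y j) (y i),
      h k j i h3 h1, v7_213, v7_132, v7_213]

theorem cp7_of (m c : ℕ) (y : Fin 7 → V) (h1 : Copy E m fun t => y t.castSucc)
    (h2 : Copy E m fun t => y ((5 : Fin 7).succAbove t))
    (hc : ∀ a : Fin 5, E (y a.castSucc.castSucc) (y 5) (y 6) = bt c a.val) : Cp7 E m c y := by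
  intro i j k hij hjk
  fin_cases i <;> fin_cases j <;> first | exact absurd hij (by decide) | skip
  all_goals fin_cases k <;> first | exact absurd hjk (by decide) | skip
  all_goals first
    | exact h1 0 1 2 (by decide) (by decide)
    | exact h1 0 1 3 (by decide) (by decide)
    | exact h1 0 1 4 (by decide) (by decide)
    | exact h1 0 1 5 (by decide) (by decide)
    | exact h1 0 2 3 (by decide) (by decide)
    | exact h1 0 2 4 (by decide) (by decide)
    | exact h1 0 2 5 (by decide) (by decide)
    | exact h1 0 3 4 (by decide) (by decide)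
    | exact h1 0 3 5 (by decide) (by decide)
    | exact h1 0 4 5 (by decide) (by decide)
    | exact h1 1 2 3 (by decide) (by decide)
    | exact h1 1 2 4 (by decide) (by decide)
    | exact h1 1 2 5 (by decide) (by decide)
    | exact h1 1 3 4 (by decide) (by decide)
    | exact h1 1 3 5 (by decide) (by decide)
    | exact h1 1 4 5 (by decide) (by decide)
    | exact h1 2 3 4 (by decide) (by decide)
    | exact h1 2 3 5 (by decide) (by decide)
    | exact h1 2 4 5 (by decide) (by decide)
    | exact h1 3 4 5 (by decide) (by decide)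
    | exact h2 0 1 5 (by decide) (by decide)
    | exact h2 0 2 5 (by decide) (by decide)
    | exact h2 0 3 5 (by decide) (by decide)
    | exact h2 0 4 5 (by decide) (by decide)
    | exact h2 1 2 5 (by decide) (by decide)
    | exact h2 1 3 5 (by decide) (by decide)
    | exact h2 1 4 5 (by decide) (by decide)
    | exact h2 2 3 5 (by decide) (by decide)
    | exact h2 2 4 5 (by decide) (by decide)
    | exact h2 3 4 5 (by decide) (by decide)
    | exact hc 0
    | exact hc 1
    | exact hc 2
    | exact hc 3
    | exact hc 4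

end
end Pool.Agent.TH773.CL
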