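import Pool.Agent.TH773.ST.Defs

/-! Definitions used in statements about five-vertex 3-graphs and Turán's `(3,4)`-problem. -/

set_option autoImplicit false
set_option maxRecDepth 100000
open Finset
open scoped Classical

namespace Pool.Agent.TH773.Turan34

/-- one edge -/
def Ya : Finset (Finset (Fin 5)) := {{0, 1, 2}}
/-- two edges with two common vertices -/
def Yb : Finset (Finset (Fin 5)) := {{0, 1, 2}, {0, 1, 3}}
/-- two edges with one common vertex -/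
def Yc : Finset (Finset (Fin 5)) := {{0, 2, 3}, {0, 1, 4}}
/-- three edges on four vertices -/
def Yd : Finset (Finset (Fin 5)) := {{0, 1, 2}, {0, 1, 3}, {0, 2, 3}}
def Ye : Finset (Finset (Fin 5)) := {{0, 2, 3}, {1, 2, 3}, {0, 1, 4}}
def Yf : Finset (Finset (Fin 5)) := {{0, 1, 2}, {0, 1, 3}, {0, 2, 3}, {0, 1, 4}}
def Yg : Finset (Finset (Fin 5)) := {{0, 1, 2}, {0, 2, 3}, {1, 2, 3}, {0, 1, 4}}
/-- the four edges with the vertex `0`, one of `1, 2` and one of `3, 4` -/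
def Yh : Finset (Finset (Fin 5)) := {{0, 1, 3}, {0, 2, 3}, {0, 1, 4}, {0, 2, 4}}
def Yi : Finset (Finset (Fin 5)) := {{1, 2, 3}, {0, 1, 4}, {0, 2, 4}, {0, 3, 4}}
def Yj : Finset (Finset (Fin 5)) := {{0, 1, 3}, {0, 2, 3}, {1, 2, 3}, {0, 1, 4}, {0, 2, 4}}
def Yk : Finset (Finset (Fin 5)) := {{0, 1, 2}, {1, 2, 3}, {0, 1, 4}, {0, 2, 4}, {0, 3, 4}}

/-- Seventeen lists of 3-graphs on five vertices. -/
def five : Fin 17 → List (Finset (Finset (Fin 5))) :=
  ![[Yb, Yd], [Yb, Yf], [Yb, Ye], [Yb, Yh], [Yb, Yj], [Yb, Yk], [Yd, Yh], [Ya, Yd, Yi],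
    [Ya, Yh, Yi], [Ya, Yj, Yi], [Yh, Yj, Yi], [Ya, Yc, Yf, Yi], [Ya, Yc, Ye, Yi],
    [Yc, Yf, Yh, Yi], [Yc, Ye, Yh, Yi], [Yf, Ye, Yh, Yi], [Ye, Yg, Yh, Yi]]

/-- The number of sets of `k` vertices which span exactly `m` edges of `H`. -/
def spans {n : ℕ} (H : Finset (Finset (Fin n))) (k m : ℕ) : ℕ :=
  (((univ : Finset (Fin n)).powersetCard k).filter fun S =>
    (H.filter fun e => e ⊆ S).card = m).card

end Pool.Agent.TH773.Turan34
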