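import Pool.Agent.TH773.CL.Brd

/-! The conclusion for the classes, and Turán's construction. -/

set_option autoImplicit false
set_option maxRecDepth 100000
set_option maxHeartbeats 4000000
open Finset
open scoped Classical

namespace Pool.Agent.TH773.CL
open Pool.Agent.H122R2.N6 Pool.Agent.H37R3.Pen Pool.Agent.H37R3.Cop Pool.Agent.H37R3.CopL
open Pool.Agent.TH773.ST

/-- the inequality of the stability theorem -/
theorem stab_copies (i : Fin 5) (n : ℕ) (H : Finset (Finset (Fin n)))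
    (h3 : ∀ e ∈ H, e.card = 3) (hK : Turan34.K43Free H) :
    ∃ g : Fin n → Fin 3, n ^ 3 * (symmDiff H (Turan34.turan g)).card +
      1161216000 * (n ^ 3 * H.card) ≤
        107520000 * n ^ 6 + 83684966400 * Turan34.copies (Turan34.fam i) H := by
  have hE := tri_sy H
  have hK' := tri_noK4 h3 hK
  obtain ⟨g, hg⟩ := stab hE hK' (certs i hE hK')
  refine ⟨g, ?_⟩
  have h1 := six_symm_le h3 g
  have h2 := six_card_le h3
  have h4 := sum_le_copies h3 i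
  rw [Fintype.card_fin] at hg
  have h5 := Nat.mul_le_mul_left (n ^ 3) h1
  have h6 := Nat.mul_le_mul_left (n ^ 3) h2
  have e5 : n ^ 3 * (6 * (symmDiff H (Turan34.turan g)).card) =
    6 * (n ^ 3 * (symmDiff H (Turan34.turan g)).card) := by ring
  have e6 : n ^ 3 * (6 * H.card) = 6 * (n ^ 3 * H.card) := by ring
  rw [e5] at h5
  rw [e6] at h6
  omega

theorem choose3 {n : ℕ} (hn : 6 ≤ n) : (n : ℝ) ^ 3 ≤ 12 * (n.choose 3 : ℝ) ∧
    (n : ℝ) ^ 3 ≤ 6 * (n.choose 3 : ℝ) + 3 * (n : ℝ) ^ 2 := by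
  have h1 : n.descFactorial 3 = Nat.factorial 3 * n.choose 3 :=
    Nat.descFactorial_eq_factorial_mul_choose n 3
  obtain ⟨m, rfl⟩ : ∃ m, n = m + 6 := ⟨n - 6, by omega⟩
  have h2 : (m + 6).descFactorial 3 = (m + 4) * ((m + 5) * (m + 6)) := by
    rw [Nat.descFactorial_succ, Nat.descFactorial_succ, Nat.descFactorial_succ,
      Nat.descFactorial_zero]
    have e1 : m + 6 - 0 = m + 6 := by omega
    have e2 : m + 6 - 1 = m + 5 := by omega
    have e3 : m + 6 - 2 = m + 4 := by omega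
    rw [e1, e2, e3, mul_one]
  have h3 : (6 : ℝ) * (((m + 6).choose 3 : ℕ) : ℝ) = ((m : ℝ) + 4) * (((m : ℝ) + 5) * ((m : ℝ) + 6)) := by
    have h4 : 6 * (m + 6).choose 3 = (m + 4) * ((m + 5) * (m + 6)) := by
      rw [← h2, h1]; rfl
    exact_mod_cast h4
  have hm : (0 : ℝ) ≤ m := by positivity
  push_cast
  constructor
  · nlinarith [pow_nonneg hm 3, pow_nonneg hm 2]
  · nlinarith [pow_nonneg hm 3, pow_nonneg hm 2]

/-- the bound and the stability for a class -/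
theorem conclude {n k : ℕ} {ε : ℝ} (hε : 0 < ε) (hk : 10 ^ 13 ≤ ε * k) (hn : 10 ≤ ε * n) (hn6 : 6 ≤ n)
    {H : Finset (Finset (Fin n))} (h3 : ∀ e ∈ H, e.card = 3) (hK : Turan34.K43Free H)
    (hc : k * Turan34.copies (Turan34.fam 2) H ≤ 2 * n ^ 6) :
    (H.card : ℝ) ≤ (5 / 9 + ε) * (n.choose 3 : ℝ) ∧ ∃ g : Fin n → Fin 3,
      ((symmDiff H (Turan34.turan g)).card : ℝ) ≤
        1161216000 * (5 / 54 * (n : ℝ) ^ 3 - H.card) + ε * (n : ℝ) ^ 3 := by
  obtain ⟨g, hg⟩ := stab_copies 2 n H h3 hK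
  set N := Turan34.copies (Turan34.fam 2) H with hN
  set D := (symmDiff H (Turan34.turan g)).card with hD
  have hn0 : (0 : ℝ) < n := by
    have : (6 : ℝ) ≤ n := by exact_mod_cast hn6
    linarith
  have hk0 : (0 : ℝ) < k := by
    by_contra hneg
    have h0 : (k : ℝ) ≤ 0 := not_lt.mp hneg
    have h1 : ε * k ≤ 0 := mul_nonpos_of_nonneg_of_nonpos hε.le h0
    linarith
  have g1 : (n : ℝ) ^ 3 * D + 1161216000 * ((n : ℝ) ^ 3 * H.card) ≤
      107520000 * (n : ℝ) ^ 6 + 83684966400 * N := by exact_mod_cast hg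
  have g2 : (k : ℝ) * N ≤ 2 * (n : ℝ) ^ 6 := by exact_mod_cast hc
  have g3 : 83684966400 * (N : ℝ) ≤ ε / 24 * (n : ℝ) ^ 6 := by
    have a1 : (k : ℝ) * (83684966400 * N) ≤ k * (ε / 24 * (n : ℝ) ^ 6) := by
      have a2 : (83684966400 * 2) * (n : ℝ) ^ 6 ≤ (ε * k) / 24 * (n : ℝ) ^ 6 := by
        apply mul_le_mul_of_nonneg_right _ (by positivity)
        linarith
      nlinarith
    exact le_of_mul_le_mul_left a1 hk0
  have g4 : (D : ℝ) + 1161216000 * H.card ≤ 107520000 * (n : ℝ) ^ 3 + ε / 24 * (n : ℝ) ^ 3 := by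
    have h2 : (0 : ℝ) < (n : ℝ) ^ 3 := by positivity
    refine le_of_mul_le_mul_left ?_ h2
    nlinarith
  have hD0 : (0 : ℝ) ≤ D := by positivity
  have hn3 : (0 : ℝ) ≤ ε * (n : ℝ) ^ 3 := by positivity
  refine ⟨?_, g, by linarith⟩
  obtain ⟨c1, c2⟩ := choose3 hn6
  have g5 : (10 : ℝ) * (n : ℝ) ^ 2 ≤ ε * (n : ℝ) ^ 3 := by
    have : (10 : ℝ) * (n : ℝ) ^ 2 ≤ (ε * n) * (n : ℝ) ^ 2 :=
      mul_le_mul_of_nonneg_right hn (by positivity)
    linarith [this, show (ε * n) * (n : ℝ) ^ 2 = ε * (n : ℝ) ^ 3 by ring]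
  have g6 : ε * (n : ℝ) ^ 3 ≤ ε * (12 * (n.choose 3 : ℝ)) := mul_le_mul_of_nonneg_left c1 hε.le
  nlinarith

/-- the general conclusion -/
theorem main_gen {F5 S6 : List ℕ} (h : Negl F5 S6 120663 ∧ Negl F5 S6 228027) {ε : ℝ}
    (hε : 0 < ε) : ∃ K n0 : ℕ, ∀ n, n0 ≤ n → ∀ H : Finset (Finset (Fin n)), (∀ e ∈ H, e.card = 3) →
      Turan34.K43Free H → (∀ f ∈ F5, K * cp5 (tri H) f ≤ n ^ 5) →
      (∀ q ∈ S6, K * c6 (tri H) q ≤ n ^ 6) →
      (H.card : ℝ) ≤ (5 / 9 + ε) * (n.choose 3 : ℝ) ∧ ∃ g : Fin n → Fin 3,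
      ((symmDiff H (Turan34.turan g)).card : ℝ) ≤
        1161216000 * (5 / 54 * (n : ℝ) ^ 3 - H.card) + ε * (n : ℝ) ^ 3 := by
  obtain ⟨k, hk⟩ := exists_nat_ge ((10 : ℝ) ^ 13 / ε)
  obtain ⟨n1, hn1⟩ := exists_nat_ge ((10 : ℝ) / ε)
  obtain ⟨K, n0, h1⟩ := few h k
  refine ⟨K, max n0 (max n1 6), fun n hn H h3 hK h5 h6 => ?_⟩
  have a0 : n0 ≤ n := (le_max_left _ _).trans hn
  have a1 : n1 ≤ n := (le_max_left _ _).trans ((le_max_right _ _).trans hn)
  have a2 : 6 ≤ n := (le_max_right _ _).trans ((le_max_right _ _).trans hn)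
  refine conclude hε ?_ ?_ a2 h3 hK (h1 n a0 H h3 hK h5 h6)
  · rw [div_le_iff₀ hε] at hk
    linarith [mul_comm (k : ℝ) ε]
  · rw [div_le_iff₀ hε] at hn1
    have a3 : (n1 : ℝ) ≤ n := by exact_mod_cast a1
    have a4 : (n1 : ℝ) * ε ≤ n * ε := mul_le_mul_of_nonneg_right a3 hε.le
    linarith [mul_comm (n : ℝ) ε]

theorem nat_of_real {c d e K N n : ℕ} {δ : ℝ} (hδ : δ = 1 / ((c : ℝ) * (K + 1)))
    (hc : 0 < c) (h : (N : ℝ) ≤ δ * (n : ℝ) ^ e) (hd : d ≤ c * N) : K * d ≤ n ^ e := by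
  have h0 : (0 : ℝ) < (c : ℝ) * (K + 1) := by positivity
  have h1 : ((c : ℝ) * (K + 1)) * N ≤ (n : ℝ) ^ e := by
    have := mul_le_mul_of_nonneg_left h h0.le
    rw [hδ] at this
    have e1 : (c : ℝ) * (K + 1) * (1 / ((c : ℝ) * (K + 1)) * (n : ℝ) ^ e) = (n : ℝ) ^ e := by
      field_simp
    rwa [e1] at this
  have h2 : c * (K + 1) * N ≤ n ^ e := by exact_mod_cast h1
  calc K * d ≤ K * (c * N) := Nat.mul_le_mul_left _ hd
    _ ≤ (K + 1) * (c * N) := Nat.mul_le_mul_right _ (Nat.le_succ _)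
    _ = c * (K + 1) * N := by ring
    _ ≤ n ^ e := h2

/-! Turán's construction -/

/-- the codes of the eleven 3-graphs -/
def L11 : List ℕ := [1, 3, 20, 7, 28, 23, 29, 54, 184, 62, 185]

theorem five_mask' (j : Fin 17) : ∀ F ∈ Turan34.five j, ∃ f ∈ L11, Mk5 f F := by
  have key : ∀ (F1 F2 : Finset (Finset (Fin 5))), (∃ f ∈ L11, Mk5 f F1) →
      (∃ f ∈ L11, Mk5 f F2) → ∀ F ∈ [F1, F2], ∃ f ∈ L11, Mk5 f F := by
    intro F1 F2 h1 h2 F hF
    rcases List.mem_cons.mp hF with rfl | hF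
    · exact h1
    rw [List.mem_singleton] at hF
    rw [hF]; exact h2
  have key3 : ∀ (F1 F2 F3 : Finset (Finset (Fin 5))), (∃ f ∈ L11, Mk5 f F1) →
      (∃ f ∈ L11, Mk5 f F2) → (∃ f ∈ L11, Mk5 f F3) → ∀ F ∈ [F1, F2, F3],
      ∃ f ∈ L11, Mk5 f F := by
    intro F1 F2 F3 h1 h2 h3 F hF
    rcases List.mem_cons.mp hF with rfl | hF
    · exact h1
    · exact key F2 F3 h2 h3 F hF
  have key4 : ∀ (F1 F2 F3 F4 : Finset (Finset (Fin 5))), (∃ f ∈ L11, Mk5 f F1) →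
      (∃ f ∈ L11, Mk5 f F2) → (∃ f ∈ L11, Mk5 f F3) → (∃ f ∈ L11, Mk5 f F4) →
      ∀ F ∈ [F1, F2, F3, F4], ∃ f ∈ L11, Mk5 f F := by
    intro F1 F2 F3 F4 h1 h2 h3 h4 F hF
    rcases List.mem_cons.mp hF with rfl | hF
    · exact h1
    · exact key3 F2 F3 F4 h2 h3 h4 F hF
  have a : ∃ f ∈ L11, Mk5 f Turan34.Ya := ⟨1, by decide, kYa⟩
  have b : ∃ f ∈ L11, Mk5 f Turan34.Yb := ⟨3, by decide, kYb⟩
  have c : ∃ f ∈ L11, Mk5 f Turan34.Yc := ⟨20, by decide, kYc⟩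
  have d : ∃ f ∈ L11, Mk5 f Turan34.Yd := ⟨7, by decide, kYd⟩
  have e : ∃ f ∈ L11, Mk5 f Turan34.Ye := ⟨28, by decide, kYe⟩
  have f : ∃ f ∈ L11, Mk5 f Turan34.Yf := ⟨23, by decide, kYf⟩
  have g : ∃ f ∈ L11, Mk5 f Turan34.Yg := ⟨29, by decide, kYg⟩
  have h : ∃ f ∈ L11, Mk5 f Turan34.Yh := ⟨54, by decide, kYh⟩
  have i : ∃ f ∈ L11, Mk5 f Turan34.Yi := ⟨184, by decide, kYi⟩
  have j' : ∃ f ∈ L11, Mk5 f Turan34.Yj := ⟨62, by decide, kYj⟩
  have k : ∃ f ∈ L11, Mk5 f Turan34.Yk := ⟨185, by decide, kYk⟩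
  fin_cases j
  exacts [key _ _ b d, key _ _ b f, key _ _ b e, key _ _ b h, key _ _ b j', key _ _ b k,
    key _ _ d h, key3 _ _ _ a d i, key3 _ _ _ a h i, key3 _ _ _ a j' i, key3 _ _ _ h j' i,
    key4 _ _ _ _ a c f i, key4 _ _ _ _ a c e i, key4 _ _ _ _ c f h i, key4 _ _ _ _ c e h i,
    key4 _ _ _ _ f e h i, key4 _ _ _ _ e g h i]

theorem tur5' : ∀ a b c d e : Fin 3, ∀ f ∈ [1, 3, 20, 7, 28, 23, 29, 54, 184, 62, 185],
    ¬ (Rf a b c = bt f 0 ∧ Rf a b d = bt f 1 ∧ Rf a c d = bt f 2 ∧ Rf b c d = bt f 3 ∧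
      Rf a b e = bt f 4 ∧ Rf a c e = bt f 5 ∧ Rf b c e = bt f 6 ∧ Rf a d e = bt f 7 ∧
      Rf b d e = bt f 8 ∧ Rf c d e = bt f 9) := by
  decide +kernel

theorem tur5 (g : Fin 5 → Fin 3) {f : ℕ}
    (hf : f ∈ [1, 3, 20, 7, 28, 23, 29, 54, 184, 62, 185])
    (h : ∀ i j k : Fin 5, i < j → j < k → Rf (g i) (g j) (g k) = bt f (tx i.val j.val k.val)) :
    False :=
  tur5' (g 0) (g 1) (g 2) (g 3) (g 4) f hf ⟨h 0 1 2 (by decide) (by decide),
    h 0 1 3 (by decide) (by decide), h 0 2 3 (by decide) (by decide),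
    h 1 2 3 (by decide) (by decide), h 0 1 4 (by decide) (by decide),
    h 0 2 4 (by decide) (by decide), h 1 2 4 (by decide) (by decide),
    h 0 3 4 (by decide) (by decide), h 1 3 4 (by decide) (by decide),
    h 2 3 4 (by decide) (by decide)⟩

theorem tur6' : ∀ a b c d e f : Fin 3, Rf a b c + Rf a b d + Rf a c d + Rf b c d + Rf a b e +
    Rf a c e + Rf b c e + Rf a d e + Rf b d e + Rf c d e + Rf a b f + Rf a c f + Rf b c f +
    Rf a d f + Rf b d f + Rf c d f + Rf a e f + Rf b e f + Rf c e f + Rf d e f ≠ 6 := by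
  decide +kernel

theorem tur6 (g : Fin 6 → Fin 3) : sp6 (fun i j k => Rf (g i) (g j) (g k)) ≠ 6 :=
  tur6' (g 0) (g 1) (g 2) (g 3) (g 4) (g 5)

theorem tur54' : ∀ a b c d e : Fin 3, Rf a b c + Rf a b d + Rf a c d + Rf b c d + Rf a b e +
    Rf a c e + Rf b c e + Rf a d e + Rf b d e + Rf c d e ≠ 4 := by
  decide +kernel

section
variable {n : ℕ}

theorem tri_turan {g : Fin n → Fin 3} {a b c : Fin n} (hab : a ≠ b) (hac : a ≠ c) (hbc : b ≠ c) :
    tri (Turan34.turan g) a b c = Rf (g a) (g b) (g c) := by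
  rw [tri_ite]
  have h := mem_turan (g := g) hab hac hbc
  have hb := Rf_sy.b (g a) (g b) (g c)
  rcases hb with hb | hb
  · rw [hb, if_neg]
    rw [h, hb]; decide
  · rw [hb, if_pos]
    rw [h, hb]

theorem exists_tuple {k : ℕ} {S : Finset (Fin n)} (hS : S.card = k) :
    ∃ f : Fin k → Fin n, Function.Injective f ∧ univ.image f = S := by
  refine ⟨fun j => (S.orderIsoOfFin hS j : Fin n), ?_, ?_⟩
  · intro a b hab
    exact (S.orderIsoOfFin hS).injective (Subtype.ext hab)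
  · ext v
    simp only [mem_image, mem_univ, true_and]
    constructor
    · rintro ⟨j, rfl⟩
      exact (S.orderIsoOfFin hS j).2
    · intro hv
      exact ⟨(S.orderIsoOfFin hS).symm ⟨v, hv⟩, by simp⟩

theorem five_turan (j : Fin 17) (g : Fin n → Fin 3) :
    Turan34.copies (Turan34.five j) (Turan34.turan g) = 0 := by
  unfold Turan34.copies
  rw [card_eq_zero, filter_eq_empty_iff]
  rintro S - ⟨F, hF, x, hx, -, h⟩
  obtain ⟨f, hf, hm⟩ := five_mask' j F hF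
  refine tur5 (g ∘ x) hf ?_
  intro a b c hab hbc
  have h1 : ({a, b, c} : Finset (Fin 5)).card = 3 := by
    rw [card_insert_of_notMem, card_insert_of_notMem, card_singleton]
    · simpa using hbc.ne
    · simpa using ⟨hab.ne, (hab.trans hbc).ne⟩
  have h2 := h _ h1
  rw [tri_img, mem_turan (fun e => hab.ne (hx e)) (fun e => (hab.trans hbc).ne (hx e))
    (fun e => hbc.ne (hx e)), ← hm a b c hab hbc] at h2
  change Rf (g (x a)) (g (x b)) (g (x c)) = _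
  have h4 : bt f (tx a.val b.val c.val) = 0 ∨ bt f (tx a.val b.val c.val) = 1 :=
    Nat.mod_two_eq_zero_or_one _
  rcases Rf_sy.b (g (x a)) (g (x b)) (g (x c)) with h3 | h3 <;> rcases h4 with h4 | h4 <;>
    rw [h3, h4] at h2 ⊢ <;> simp at h2

theorem six_turan (g : Fin n → Fin 3) : Turan34.spans (Turan34.turan g) 6 6 = 0 := by
  unfold Turan34.spans
  rw [card_eq_zero, filter_eq_empty_iff]
  intro S hS h
  obtain ⟨x, hx, rfl⟩ := exists_tuple (mem_powersetCard.mp hS).2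
  rw [span6 (fun e he => turan_card he) hx] at h
  refine tur6 (g ∘ x) ((sp6_congr fun i j k hij hjk => ?_).trans h)
  exact (tri_turan (fun e => hij.ne (hx e)) (fun e => (hij.trans hjk).ne (hx e))
    (fun e => hjk.ne (hx e))).symm

theorem fourfive_turan (g : Fin n → Fin 3) : Turan34.spans (Turan34.turan g) 5 4 = 0 := by
  unfold Turan34.spans
  rw [card_eq_zero, filter_eq_empty_iff]
  intro S hS h
  obtain ⟨x, hx, rfl⟩ := exists_tuple (mem_powersetCard.mp hS).2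
  rw [card_span (fun e he => turan_card he) hx, sum_T T10_nd T10_eq] at h
  simp only [T10, List.map_cons, List.map_nil, List.sum_cons, List.sum_nil, tri_img, ← tri_ite] at h
  refine tur54' (g (x 0)) (g (x 1)) (g (x 2)) (g (x 3)) (g (x 4)) ?_
  have key : ∀ i j k : Fin 5, i < j → j < k → tri (Turan34.turan g) (x i) (x j) (x k) =
      Rf (g (x i)) (g (x j)) (g (x k)) := by
    intro i j k hij hjk
    exact tri_turan (fun e => hij.ne (hx e)) (fun e => (hij.trans hjk).ne (hx e))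
      (fun e => hjk.ne (hx e))
  rw [key 0 1 2 (by decide) (by decide), key 0 1 3 (by decide) (by decide),
    key 0 2 3 (by decide) (by decide), key 1 2 3 (by decide) (by decide),
    key 0 1 4 (by decide) (by decide), key 0 2 4 (by decide) (by decide),
    key 1 2 4 (by decide) (by decide), key 0 3 4 (by decide) (by decide),
    key 1 3 4 (by decide) (by decide), key 2 3 4 (by decide) (by decide)] at h
  omega

end
end Pool.Agent.TH773.CL
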